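import Pool.Agent.Lib.P28h.Finite

set_option autoImplicit false

/-!
# Every homologically trivial diffeomorphism of `CP^n` has a lift of finite critical energy
-/

namespace Pool.Agent.Lib.P28h

open Pool.Agent.P28b04d Pool.Agent.Lib.P28e
open scoped ContDiff ENNReal
open Set Filter Topology Metric MeasureTheory

variable {n : ℕ} {Φ : W n → W n}

/-- The norm of the connection form is an admissible bound. -/
theorem connLe_conn (h : HLoc Φ) : ConnLe Φ (fun x => ‖conn Φ x‖) := by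
  intro x hx u v w huv
  have h1 := fderiv_conn h hx v w
  have h2 : fderiv ℝ Φ x (u - conn Φ x w v) = 0 := by
    rw [map_sub, huv, h1, sub_self]
  have h3 : u = conn Φ x w v := sub_eq_zero.1 (h.inj x hx _ h2)
  rw [h3]
  calc ‖conn Φ x w v‖ ≤ ‖conn Φ x w‖ * ‖v‖ := (conn Φ x w).le_opNorm v
    _ ≤ ‖conn Φ x‖ * ‖w‖ * ‖v‖ := by
        have := (conn Φ x).le_opNorm w
        gcongr
    _ = ‖conn Φ x‖ * ‖v‖ * ‖w‖ := by ring

theorem exists_lift_energy {F G : Mt n → Mt n} (hF : ContDiff ℝ ∞ F) (hG : ContDiff ℝ ∞ G)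
    (hFm : ∀ P ∈ CP n, F P ∈ CP n) (hGF : ∀ P ∈ CP n, G (F P) = P)
    {H : ℝ × Mt n → Mt n} (hH : ContinuousOn H (Icc (0 : ℝ) 1 ×ˢ CP n))
    (hHm : ∀ t ∈ Icc (0 : ℝ) 1, ∀ P ∈ CP n, H (t, P) ∈ CP n)
    (hH0 : ∀ P ∈ CP n, H (0, P) = P) (hH1 : ∀ P ∈ CP n, H (1, P) = F P) :
    ∃ (E : ℝ) (Φ : W n → W n) (a : W n → ℝ), HLoc Φ ∧ ConnLe Φ a ∧
      ∫⁻ x in ball (0 : W n) 1, ENNReal.ofReal (a x) ^ (2 * n) ≤ ENNReal.ofReal E ∧
      ∀ z : W n, z ≠ 0 → F (pt z) = pt (Φ z) := by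
  obtain ⟨Φ, hΦ, hpt⟩ := exists_lift hF hG hFm hGF hH hHm hH0 hH1
  refine ⟨(energy Φ).toReal, Φ, fun x => ‖conn Φ x‖, hΦ, connLe_conn hΦ, ?_, hpt⟩
  rw [ENNReal.ofReal_toReal (energy_lt_top hΦ).ne]
  unfold energy
  refine le_of_eq (lintegral_congr fun x => ?_)
  rw [← ofReal_norm]

end Pool.Agent.Lib.P28h
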