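import Pool.Agent.Lib.P28b04d.Final
import Mathlib.Geometry.Manifold.PartitionOfUnity

set_option autoImplicit false

/-!
# Every diffeomorphism of `CP^n` which is homotopic to the identity has a homogeneous lift

`F`, `G`, `H` as in the frozen statement S12917 (for all `n`): `F` and `G` are smooth, inverse to each other on `CP n`,
and `H` is a continuous homotopy in `CP n` from the identity to `F`. The lift is `z ↦ F (pt z) * M (pt z) * z` with a smooth
approximation `M` of the product of the projections `H (t_i, ·)` over a fine subdivision.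
-/

namespace Pool.Agent.Lib.P28h

open Pool.Agent.P28b04d
open scoped ContDiff
open Set Filter Topology

variable {n : ℕ}

/-- Matrices. -/
abbrev Mt (n : ℕ) : Type := Fin (n + 1) → Fin (n + 1) → ℂ

/-- Vectors. -/
abbrev Vc (n : ℕ) : Type := Fin (n + 1) → ℂ

theorem norm_act_le (P : Mt n) (v : Vc n) : ‖act P v‖ ≤ ((n : ℝ) + 1) * ‖P‖ * ‖v‖ := by
  rw [pi_norm_le_iff_of_nonneg (by positivity)]
  intro i
  unfold act
  refine (norm_sum_le _ _).trans ?_
  calc ∑ k, ‖P i k * v k‖ ≤ ∑ _k : Fin (n + 1), ‖P‖ * ‖v‖ := by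
        refine Finset.sum_le_sum fun k _ => ?_
        rw [norm_mul]
        gcongr
        · exact (norm_le_pi_norm (P i) k).trans (norm_le_pi_norm P i)
        · exact norm_le_pi_norm v k
    _ = ((n : ℝ) + 1) * ‖P‖ * ‖v‖ := by
        rw [Finset.sum_const, Finset.card_univ, Fintype.card_fin, nsmul_eq_mul]
        push_cast
        ring

theorem act_sub_left (P Q : Mt n) (v : Vc n) : act (P - Q) v = act P v - act Q v := by
  funext i
  simp [act, sub_mul, Finset.sum_sub_distrib]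

theorem act_sub_right (P : Mt n) (v w : Vc n) : act P (v - w) = act P v - act P w := by
  funext i
  simp [act, mul_sub, Finset.sum_sub_distrib]

theorem norm_le_one {P : Mt n} (hP : P ∈ CP n) : ‖P‖ ≤ 1 := by
  obtain ⟨z, hz, rfl⟩ := exists_pt hP
  rw [pi_norm_le_iff_of_nonneg zero_le_one]
  intro i
  rw [pi_norm_le_iff_of_nonneg zero_le_one]
  intro j
  have hN := nsq_pos hz
  simp only [pt]
  rw [norm_div, norm_mul, norm_star, Complex.norm_real, Real.norm_eq_abs, abs_of_pos hN,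
    div_le_one hN]
  have h1 : ∀ k : Fin (n + 1), ‖z k‖ ^ 2 ≤ nsq z := by
    intro k
    unfold nsq
    rw [← Complex.normSq_eq_norm_sq]
    exact Finset.single_le_sum (f := fun k => Complex.normSq (z k))
      (fun _ _ => Complex.normSq_nonneg _) (Finset.mem_univ k)
  nlinarith [h1 i, h1 j, sq_nonneg (‖z i‖ - ‖z j‖)]

theorem isCompact_CP (n : ℕ) : IsCompact (CP n) := by
  have hcl : IsClosed (CP n) := by
    have e : CP n = (⋂ i, ⋂ j, {P : Mt n | P j i = star (P i j)}) ∩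
        ((⋂ i, ⋂ j, {P : Mt n | ∑ k, P i k * P k j = P i j}) ∩ {P : Mt n | ∑ i, P i i = 1}) := by
      ext P
      simp [CP]
    rw [e]
    refine IsClosed.inter ?_ (IsClosed.inter ?_ ?_)
    · exact isClosed_iInter fun i => isClosed_iInter fun j =>
        isClosed_eq (by fun_prop) (by fun_prop)
    · exact isClosed_iInter fun i => isClosed_iInter fun j =>
        isClosed_eq (by fun_prop) (by fun_prop)
    · exact isClosed_eq (by fun_prop) (by fun_prop)
  refine (isCompact_closedBall (0 : Mt n) 1).of_isClosed_subset hcl fun P hP => ?_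
  rw [mem_closedBall_zero_iff]
  exact norm_le_one hP

/-- A matrix in `CP n` close to `P` moves a vector in the line `P` only a little. -/
theorem act_near {P Q : Mt n} {v : Vc n} (hv : act P v = v)
    (h : ‖Q - P‖ ≤ 1 / (2 * ((n : ℝ) + 1))) : ‖v‖ / 2 ≤ ‖act Q v‖ := by
  have hK : (0 : ℝ) < (n : ℝ) + 1 := by positivity
  have h1 : ‖act Q v - v‖ ≤ ‖v‖ / 2 := by
    have e : act Q v - v = act (Q - P) v := by rw [act_sub_left, hv]
    rw [e]
    refine (norm_act_le _ _).trans ?_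
    calc ((n : ℝ) + 1) * ‖Q - P‖ * ‖v‖ ≤ ((n : ℝ) + 1) * (1 / (2 * ((n : ℝ) + 1))) * ‖v‖ := by gcongr
      _ = ‖v‖ / 2 := by field_simp
  have h2 : ‖v‖ ≤ ‖act Q v - v‖ + ‖act Q v‖ := by
    calc ‖v‖ = ‖-(act Q v - v) + act Q v‖ := by congr 1; abel
      _ ≤ _ := by
        refine (norm_add_le _ _).trans ?_
        rw [norm_neg]
  linarith

theorem act_idem {P : Mt n} (hP : P ∈ CP n) (v : Vc n) : act P (act P v) = act P v := by
  obtain ⟨z, hz, rfl⟩ := exists_pt hP
  rw [act_pt z v, act_smul, act_pt_self hz]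

/-- The matrix product. -/
def mm (P Q : Mt n) : Mt n := fun i j => ∑ k, P i k * Q k j

theorem act_mm (P Q : Mt n) (v : Vc n) : act (mm P Q) v = act P (act Q v) := by
  funext i
  simp only [act, mm, Finset.sum_mul, Finset.mul_sum]
  rw [Finset.sum_comm]
  exact Finset.sum_congr rfl fun k _ => Finset.sum_congr rfl fun l _ => by ring

/-- The product of the projections of the homotopy up to step `i`. -/
noncomputable def prd (H : ℝ × Mt n → Mt n) (N : ℕ) : ℕ → Mt n → Mt n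
  | 0, P => P
  | i + 1, P => mm (H ((i + 1 : ℕ) / N, P)) (prd H N i P)

theorem prd_cont {H : ℝ × Mt n → Mt n} (hH : ContinuousOn H (Icc (0 : ℝ) 1 ×ˢ CP n)) {N : ℕ}
    (hN : 0 < N) (i : ℕ) (hi : i ≤ N) : ContinuousOn (prd H N i) (CP n) := by
  induction i with
  | zero => exact continuousOn_id
  | succ i ih =>
    have h1 := ih (by omega)
    have h2 : ContinuousOn (fun P : Mt n => H ((i + 1 : ℕ) / N, P)) (CP n) := by
      refine hH.comp (by fun_prop) fun P hP => ⟨⟨by positivity, ?_⟩, hP⟩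
      rw [div_le_one (by exact_mod_cast hN)]
      exact_mod_cast hi
    show ContinuousOn (fun P => mm (H ((i + 1 : ℕ) / N, P)) (prd H N i P)) (CP n)
    unfold mm
    refine continuousOn_pi.2 fun a => continuousOn_pi.2 fun b => ?_
    refine continuousOn_finsetSum _ fun k _ => ?_
    exact (continuousOn_pi.1 (continuousOn_pi.1 h2 a) k).mul
      (continuousOn_pi.1 (continuousOn_pi.1 h1 k) b)

theorem prd_spec {H : ℝ × Mt n → Mt n}
    (hmem : ∀ t ∈ Icc (0 : ℝ) 1, ∀ P ∈ CP n, H (t, P) ∈ CP n) (h0 : ∀ P ∈ CP n, H (0, P) = P)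
    {N : ℕ} (hN : 0 < N)
    (hnear : ∀ i : ℕ, i < N → ∀ P ∈ CP n,
      ‖H ((i + 1 : ℕ) / N, P) - H ((i : ℕ) / N, P)‖ ≤ 1 / (2 * ((n : ℝ) + 1)))
    {z : Vc n} (hz : z ≠ 0) (i : ℕ) (hi : i ≤ N) :
    act (H ((i : ℕ) / N, pt z)) (act (prd H N i (pt z)) z) = act (prd H N i (pt z)) z ∧
      ‖z‖ / 2 ^ i ≤ ‖act (prd H N i (pt z)) z‖ := by
  induction i with
  | zero =>
    simp only [Nat.cast_zero, zero_div, pow_zero, div_one]
    rw [h0 _ (pt_mem hz)]
    show act (pt z) (act (pt z) z) = act (pt z) z ∧ ‖z‖ ≤ ‖act (pt z) z‖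
    rw [act_pt_self hz]
    exact ⟨act_pt_self hz, le_rfl⟩
  | succ i ih =>
    obtain ⟨ih1, ih2⟩ := ih (by omega)
    have hN' : (0 : ℝ) < N := by exact_mod_cast hN
    have e : act (prd H N (i + 1) (pt z)) z =
        act (H ((i + 1 : ℕ) / N, pt z)) (act (prd H N i (pt z)) z) := act_mm _ _ _
    rw [e]
    have hm : H ((i + 1 : ℕ) / N, pt z) ∈ CP n :=
      hmem _ ⟨by positivity, by rw [div_le_one hN']; exact_mod_cast hi⟩ _ (pt_mem hz)
    refine ⟨act_idem hm _, ?_⟩
    have h1 := act_near ih1 (hnear i (by omega) _ (pt_mem hz))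
    refine le_trans ?_ h1
    calc ‖z‖ / 2 ^ (i + 1) = (‖z‖ / 2 ^ i) / 2 := by rw [pow_succ]; field_simp
      _ ≤ _ := by gcongr

/-- Smooth approximation of a matrix function which is continuous on `CP n`. -/
theorem exists_smooth {M₀ : Mt n → Mt n} (hM : ContinuousOn M₀ (CP n)) {ε : ℝ} (hε : 0 < ε) :
    ∃ M : Mt n → Mt n, ContDiff ℝ ∞ M ∧ ∀ P ∈ CP n, ‖M P - M₀ P‖ < ε := by
  classical
  let t : Mt n → Set (Mt n) := fun P => {Q | P ∈ CP n → ‖Q - M₀ P‖ < ε}
  have hconv : ∀ P, Convex ℝ (t P) := by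
    intro P
    by_cases hP : P ∈ CP n
    · have : t P = Metric.ball (M₀ P) ε := by
        ext Q
        simp [t, hP, dist_eq_norm]
      rw [this]
      exact convex_ball _ _
    · have : t P = univ := by
        ext Q
        simp [t, hP]
      rw [this]
      exact convex_univ
  have hloc : ∀ P : Mt n, ∃ c : Mt n, ∀ᶠ Q in 𝓝 P, c ∈ t Q := by
    intro P
    by_cases hP : P ∈ CP n
    · refine ⟨M₀ P, ?_⟩
      have h1 := hM P hP
      have h2 := Metric.tendsto_nhds.1 h1 ε hε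
      rw [eventually_nhdsWithin_iff] at h2
      filter_upwards [h2] with Q hQ hQ'
      have := hQ hQ'
      rwa [dist_comm, dist_eq_norm] at this
    · refine ⟨0, ?_⟩
      filter_upwards [(isCompact_CP n).isClosed.isOpen_compl.mem_nhds hP] with Q hQ hQ'
      exact absurd hQ' hQ
  obtain ⟨g, hg⟩ := exists_contMDiffMap_forall_mem_convex_of_local_const
    (modelWithCornersSelf ℝ (Mt n)) (n := ⊤) (t := t) hconv hloc
  exact ⟨g, g.contMDiff.contDiff, fun P hP => hg P hP⟩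


/-- The derivative of the lift is injective. -/
theorem inj_of_inverse {F G : Mt n → Mt n} (hG : ContDiff ℝ ∞ G)
    (hGF : ∀ P ∈ CP n, G (F P) = P) {Φ : Vc n → Vc n} (hsm : ContDiffOn ℝ ∞ Φ {0}ᶜ)
    (hom : ∀ (c : ℂ) (z : Vc n), Φ (c • z) = c • Φ z)
    (hne : ∀ z : Vc n, z ≠ 0 → Φ z ≠ 0) (hpt : ∀ z : Vc n, z ≠ 0 → F (pt z) = pt (Φ z))
    (z : Vc n) (hz : z ≠ 0) (v : Vc n) (hv : fderiv ℝ Φ z v = 0) : v = 0 := by
  have hd : HasFDerivAt Φ (fderiv ℝ Φ z) z :=
    ((hsm.contDiffAt (isOpen_compl_singleton.mem_nhds hz)).differentiableAt (by simp)).hasFDerivAt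
  have hc : HasDerivAt (fun r : ℝ => z + r • v) v 0 := by
    simpa using ((hasDerivAt_id (0 : ℝ)).smul_const v).const_add z
  have hc0 : z + (0 : ℝ) • v = z := by simp
  have hev : ∀ᶠ r in 𝓝 (0 : ℝ), z + r • v ≠ 0 :=
    eventually_ne hc.continuousAt (by simpa using hz)
  -- `Φ` along the curve
  have hd0 : HasFDerivAt Φ (fderiv ℝ Φ z) (z + (0 : ℝ) • v) := by rw [hc0]; exact hd
  have h1 : HasDerivAt (fun r : ℝ => Φ (z + r • v)) 0 0 := by
    have := hd0.comp_hasDerivAt (0 : ℝ) hc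
    rw [hv] at this
    exact this
  have h2 : HasDerivAt (fun r : ℝ => pt (Φ (z + r • v))) 0 0 := by
    have hp : HasFDerivAt (pt (n := n)) (fderiv ℝ pt (Φ (z + (0 : ℝ) • v)))
        (Φ (z + (0 : ℝ) • v)) := by
      rw [hc0]
      exact ((contDiffAt_pt (hne z hz)).differentiableAt (by simp)).hasFDerivAt
    have := hp.comp_hasDerivAt (0 : ℝ) h1
    rw [map_zero] at this
    exact this
  have h3 : HasDerivAt (fun r : ℝ => G (pt (Φ (z + r • v)))) 0 0 := by
    have hg : HasFDerivAt G (fderiv ℝ G (pt (Φ (z + (0 : ℝ) • v)))) (pt (Φ (z + (0 : ℝ) • v))) :=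
      (hG.contDiffAt.differentiableAt (by simp)).hasFDerivAt
    have := hg.comp_hasDerivAt (0 : ℝ) h2
    rw [map_zero] at this
    exact this
  have h4 : HasDerivAt (fun r : ℝ => pt (z + r • v)) 0 0 := by
    apply h3.congr_of_eventuallyEq
    filter_upwards [hev] with r hr
    rw [← hpt _ hr, hGF _ (pt_mem hr)]
  have h5 := hasDerivAt_act h4 hc
  have h6 : HasDerivAt (fun r : ℝ => z + r • v)
      (act 0 ((fun r : ℝ => z + r • v) 0) + act ((fun r : ℝ => pt (z + r • v)) 0) v) 0 := by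
    apply h5.congr_of_eventuallyEq
    filter_upwards [hev] with r hr
    exact (act_pt_self hr).symm
  have h7 := hc.unique h6
  have h8 : (fun r : ℝ => pt (z + r • v)) 0 = pt z := by simp
  have h9 : act (0 : Mt n) ((fun r : ℝ => z + r • v) 0) = 0 := by
    funext i
    simp [act]
  rw [h8, act_pt, h9, zero_add] at h7
  -- `v` is a multiple of `z`
  set a : ℂ := hip z v / (nsq z : ℂ) with ha
  have hcz : HasDerivAt (fun r : ℝ => ((1 : ℂ) + (r : ℂ) * a) • Φ z) (a • Φ z) 0 := by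
    have e1 : HasDerivAt (fun r : ℝ => (1 : ℂ) + (r : ℂ) * a) a 0 := by
      have := ((Complex.ofRealCLM.hasDerivAt (x := (0 : ℝ))).mul_const a).const_add (1 : ℂ)
      simpa using this
    exact e1.smul_const (Φ z)
  have hcz2 : (fun r : ℝ => Φ (z + r • v)) = fun r : ℝ => ((1 : ℂ) + (r : ℂ) * a) • Φ z := by
    funext r
    rw [← hom]
    congr 1
    rw [h7, add_smul, one_smul, mul_smul]
    congr 1
  rw [hcz2] at h1
  have h10 := hcz.unique h1
  have h11 : a = 0 := by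
    rcases smul_eq_zero.1 h10 with h | h
    · exact h
    · exact absurd h (hne z hz)
  rw [h7, h11, zero_smul]

theorem exists_lift {F G : Mt n → Mt n} (hF : ContDiff ℝ ∞ F) (hG : ContDiff ℝ ∞ G)
    (hFm : ∀ P ∈ CP n, F P ∈ CP n) (hGF : ∀ P ∈ CP n, G (F P) = P)
    {H : ℝ × Mt n → Mt n} (hH : ContinuousOn H (Icc (0 : ℝ) 1 ×ˢ CP n))
    (hHm : ∀ t ∈ Icc (0 : ℝ) 1, ∀ P ∈ CP n, H (t, P) ∈ CP n)
    (hH0 : ∀ P ∈ CP n, H (0, P) = P) (hH1 : ∀ P ∈ CP n, H (1, P) = F P) :
    ∃ Φ : Vc n → Vc n, HLoc Φ ∧ ∀ z : Vc n, z ≠ 0 → F (pt z) = pt (Φ z) := by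
  have hK : (0 : ℝ) < (n : ℝ) + 1 := by positivity
  have hcomp : IsCompact (Icc (0 : ℝ) 1 ×ˢ CP n) := isCompact_Icc.prod (isCompact_CP n)
  have hunif := hcomp.uniformContinuousOn_of_continuous hH
  rw [Metric.uniformContinuousOn_iff] at hunif
  obtain ⟨δ, hδ, hunif⟩ := hunif (1 / (2 * ((n : ℝ) + 1))) (by positivity)
  obtain ⟨m, hm⟩ := exists_nat_gt (1 / δ)
  set N : ℕ := m + 1 with hN
  have hN0 : 0 < N := by omega
  have hN' : (0 : ℝ) < N := by exact_mod_cast hN0
  have hNδ : 1 / (N : ℝ) < δ := by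
    rw [div_lt_iff₀ hN']
    rw [div_lt_iff₀ hδ] at hm
    have : (m : ℝ) ≤ N := by exact_mod_cast (by omega : m ≤ N)
    nlinarith
  have hnear : ∀ i : ℕ, i < N → ∀ P ∈ CP n,
      ‖H ((i + 1 : ℕ) / N, P) - H ((i : ℕ) / N, P)‖ ≤ 1 / (2 * ((n : ℝ) + 1)) := by
    intro i hi P hP
    have h1 : ((i + 1 : ℕ) : ℝ) / N ≤ 1 := by
      rw [div_le_one hN']; exact_mod_cast hi
    have h2 : ((i : ℕ) : ℝ) / N ≤ 1 := by
      rw [div_le_one hN']; exact_mod_cast hi.le
    have h3 := hunif (((i + 1 : ℕ) : ℝ) / N, P) ⟨⟨by positivity, h1⟩, hP⟩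
      (((i : ℕ) : ℝ) / N, P) ⟨⟨by positivity, h2⟩, hP⟩ (by
        rw [Prod.dist_eq, dist_self, max_lt_iff]
        refine ⟨?_, hδ⟩
        rw [Real.dist_eq, ← sub_div]
        have : ((i + 1 : ℕ) : ℝ) - (i : ℕ) = 1 := by push_cast; ring
        rw [this, abs_of_pos (by positivity)]
        exact hNδ)
    rw [dist_eq_norm] at h3
    exact h3.le
  -- the product of projections and its approximation
  have hM₀ := prd_cont hH hN0 N le_rfl
  obtain ⟨M, hM, hMM⟩ := exists_smooth hM₀ (ε := 1 / (((n : ℝ) + 1) ^ 2 * 2 ^ (N + 1)))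
    (by positivity)
  have hNN : ((N : ℕ) : ℝ) / N = 1 := div_self hN'.ne'
  have hbig : ∀ z : Vc n, z ≠ 0 → act (F (pt z)) (act (M (pt z)) z) ≠ 0 := by
    intro z hz
    obtain ⟨h1, h2⟩ := prd_spec hHm hH0 hN0 hnear hz N le_rfl
    rw [hNN, hH1 _ (pt_mem hz)] at h1
    have hzn := norm_pos_iff.2 hz
    have h3 : ‖act (F (pt z)) (act (M (pt z)) z) - act (prd H N N (pt z)) z‖ ≤
        ‖z‖ / 2 ^ (N + 1) := by
      have e : act (F (pt z)) (act (M (pt z)) z) - act (prd H N N (pt z)) z =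
          act (F (pt z)) (act (M (pt z) - prd H N N (pt z)) z) := by
        rw [act_sub_left, act_sub_right, h1]
      rw [e]
      refine (norm_act_le _ _).trans ?_
      have h4 := norm_act_le (M (pt z) - prd H N N (pt z)) z
      have h5 := (hMM _ (pt_mem hz)).le
      have h6 := norm_le_one (hFm _ (pt_mem hz))
      calc ((n : ℝ) + 1) * ‖F (pt z)‖ * ‖act (M (pt z) - prd H N N (pt z)) z‖
          ≤ ((n : ℝ) + 1) * 1 * (((n : ℝ) + 1) * (1 / (((n : ℝ) + 1) ^ 2 * 2 ^ (N + 1))) * ‖z‖) := by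
            gcongr
            exact h4.trans (by gcongr)
        _ = ‖z‖ / 2 ^ (N + 1) := by field_simp
    intro h0
    rw [h0, zero_sub, norm_neg] at h3
    have h7 : ‖z‖ / 2 ^ N = 2 * (‖z‖ / 2 ^ (N + 1)) := by
      rw [pow_succ 2 N, mul_comm ((2 : ℝ) ^ N) 2, ← div_div, mul_div_assoc']
      ring
    have h8 : 0 < ‖z‖ / 2 ^ (N + 1) := by positivity
    linarith
  have hom : ∀ (c : ℂ) (z : Vc n), act (F (pt (c • z))) (act (M (pt (c • z))) (c • z)) =
      c • act (F (pt z)) (act (M (pt z)) z) := by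
    intro c z
    by_cases hc : c = 0
    · subst hc
      rw [zero_smul, zero_smul, act_zero, act_zero]
    · rw [pt_smul hc, act_smul, act_smul]
  have hptsm : ContDiffOn ℝ ∞ (pt (n := n)) {0}ᶜ := fun z hz =>
    (contDiffAt_pt hz).contDiffWithinAt
  have hsm : ContDiffOn ℝ ∞ (fun z : Vc n => act (F (pt z)) (act (M (pt z)) z)) {0}ᶜ :=
    contDiffOn_act (hF.comp_contDiffOn hptsm)
      (contDiffOn_act (hM.comp_contDiffOn hptsm) contDiffOn_id)
  have hpt : ∀ z : Vc n, z ≠ 0 → F (pt z) = pt (act (F (pt z)) (act (M (pt z)) z)) := fun z hz =>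
    eq_pt_act (hFm _ (pt_mem hz)) (hbig z hz)
  exact ⟨_, ⟨hsm, hom, inj_of_inverse hG hGF hsm hom hbig hpt⟩, hpt⟩

end Pool.Agent.Lib.P28h
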