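import Pool.Agent.Lib.P28c.Key
import Pool.Agent.Lib.P28g.IsoFin

set_option autoImplicit false

/-!
# Comparison of the matrices of far points along chains of good balls

Variants of `Pool.Agent.Lib.P28c.far`, `loc`, `key` with the energy bound replaced by mean flatness at all small scales.
-/

open MeasureTheory Set Metric
open scoped ENNReal ContDiff

namespace Pool.Agent.Lib.P28h

open Pool.Agent.P28b04d Pool.Agent.Lib.P28e Pool.Agent.Lib.P28c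
open Pool.Agent.Lib.P28c.FarAux

/-- Mean flatness: in every ball `B(z, ρ)` with `ρ ≤ κ |z|` the derivative is, up to `ε` in mean, one invertible matrix. -/
def MeanFlat {n : ℕ} (Φ : W n → W n) (κ ε : ℝ) : Prop :=
  ∀ z : W n, z ≠ 0 → ∀ ρ : ℝ, 0 < ρ → ρ ≤ κ * ‖z‖ → ∃ M : (EndW n)ˣ, Good Φ z ρ ε M

/-- Mean flatness at the single scale `κ`: only the balls `B(z, κ |z|)`. -/
def FlatAt {n : ℕ} (Φ : W n → W n) (κ ε : ℝ) : Prop :=
  ∀ z : W n, z ≠ 0 → ∃ M : (EndW n)ˣ, Good Φ z (κ * ‖z‖) ε M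

/-- Flatness below scale `κ`: in every ball `B(z, ρ)`, `ρ ≤ κ |z|`, the derivative is, up to `e` in mean, one invertible
matrix, and up to `ε` in the balls of radius `κ |z|`. -/
def Flat {n : ℕ} (Φ : W n → W n) (κ e ε : ℝ) : Prop :=
  ∀ z : W n, z ≠ 0 → (∀ ρ : ℝ, 0 < ρ → ρ ≤ κ * ‖z‖ → ∃ M : (EndW n)ˣ, Good Φ z ρ e M) ∧
    ∃ M : (EndW n)ˣ, Good Φ z (κ * ‖z‖) ε M

/-- `Good` with one radius `ρ` at the points of an annulus. -/
def AnnGood {n : ℕ} (Φ : W n → W n) (ρ d : ℝ) : Prop :=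
  ∀ z : W n, 1 / (4 * ((n : ℝ) + 1)) ≤ ‖z‖ → ‖z‖ ≤ 1 / 2 → ∃ M : (EndW n)ˣ, Good Φ z ρ d M

theorem farP (n : ℕ) (P : (W n → W n) → Prop) {d ρ Λ : ℝ} (hρ1 : ρ ≤ 1 / (8 * ((n : ℝ) + 1))) (hΛ : 1 ≤ Λ)
    (hfar : ∀ Φ : W n → W n, HLoc Φ → P Φ → ∀ z z' : W n, ‖z‖ = 1 / 2 → ‖z'‖ = 1 / 2 →
      (∀ t ∈ Icc (0 : ℝ) 1, 1 / (4 * ((n : ℝ) + 1)) ≤ ‖z + t • (z' - z)‖) →
      ∀ M M' : (EndW n)ˣ, Good Φ z ρ d M → Good Φ z' ρ d M' →
        ‖(↑M⁻¹ : EndW n) * (M' : EndW n)‖ ≤ Λ) :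
    ∀ Φ : W n → W n, HLoc Φ → P Φ →
      ∀ z z' : W n, ‖z‖ = 1 / 2 → ‖z'‖ = 1 / 2 →
      ∀ M M' : (EndW n)ˣ, Good Φ z ρ d M → Good Φ z' ρ d M' →
        ‖(↑M⁻¹ : EndW n) * (M' : EndW n)‖ ≤ Λ * (1 + Λ) ∧ ‖Jm M‖ ≤ Λ * (1 + Λ) := by
  have hn0 : (0 : ℝ) ≤ n := Nat.cast_nonneg n
  have hρ8 : ρ ≤ 1 / 8 := by
    refine hρ1.trans ?_
    apply one_div_le_one_div_of_le (by norm_num)
    linarith
  have hq : 1 / (4 * ((n : ℝ) + 1)) ≤ 1 / 4 := by
    apply one_div_le_one_div_of_le (by norm_num)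
    linarith
  -- part (a)
  have key : ∀ Φ : W n → W n, HLoc Φ → P Φ → ∀ z : W n, ‖z‖ = 1 / 2 →
      ∀ M : (EndW n)ˣ, Good Φ z ρ d M → ‖Jm M‖ ≤ Λ := by
    intro Φ h hEn z hz M hM
    have hρz : ρ < ‖z‖ := by rw [hz]; linarith
    have hg := good_rot h hρz Complex.I_ne_zero Complex.norm_I hM
    have hz' : ‖Complex.I • z‖ = 1 / 2 := by rw [norm_smul, Complex.norm_I, one_mul, hz]
    have hseg : ∀ t ∈ Icc (0 : ℝ) 1, 1 / (4 * ((n : ℝ) + 1)) ≤ ‖z + t • (Complex.I • z - z)‖ := by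
      intro t _
      have e : z + t • (Complex.I • z - z) = (((1 - t : ℝ) : ℂ) + (t : ℂ) * Complex.I) • z := by
        ext k
        simp only [Pi.add_apply, Pi.smul_apply, Pi.sub_apply, smul_eq_mul, Complex.real_smul]
        push_cast
        ring
      rw [e, norm_smul, hz]
      have h1 : 1 / 2 ≤ ‖((1 - t : ℝ) : ℂ) + (t : ℂ) * Complex.I‖ := by
        rw [Complex.norm_add_mul_I]
        apply Real.le_sqrt_of_sq_le
        nlinarith [sq_nonneg (2 * t - 1)]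
      linarith
    have h3 := hfar Φ h hEn z (Complex.I • z) hz hz' hseg M _ hM hg
    have e : Jm M = (↑M⁻¹ : EndW n) *
        ((UC n Complex.I Complex.I_ne_zero * M * (UC n Complex.I Complex.I_ne_zero)⁻¹ :
          (EndW n)ˣ) : EndW n) * (UC n Complex.I Complex.I_ne_zero : EndW n) := by
      rw [Units.val_mul, Units.val_mul, mul_assoc, mul_assoc, Units.inv_mul, mul_one, ← mul_assoc]
      rfl
    rw [e]
    calc _ ≤ ‖(↑M⁻¹ : EndW n) *
        ((UC n Complex.I Complex.I_ne_zero * M * (UC n Complex.I Complex.I_ne_zero)⁻¹ :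
          (EndW n)ˣ) : EndW n)‖ * ‖(mulC Complex.I : EndW n)‖ := norm_mul_le _ _
      _ ≤ Λ * 1 := by
          rw [norm_mulC, Complex.norm_I]
          exact mul_le_mul_of_nonneg_right h3 zero_le_one
      _ = Λ := mul_one _
  intro Φ h hEn z z' hz hz' M M' hM hM'
  refine ⟨?_, (key Φ h hEn z hz M hM).trans (by nlinarith)⟩
  obtain ⟨u, hu1, hure⟩ := exists_phase (hip z z')
  have hu : u ≠ 0 := by
    rintro rfl
    simp at hu1
  have hρz' : ρ < ‖z'‖ := by rw [hz']; linarith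
  have hg := good_rot h hρz' hu hu1 hM'
  have huz : ‖u • z'‖ = 1 / 2 := by rw [norm_smul, hu1, one_mul, hz']
  have hseg : ∀ t ∈ Icc (0 : ℝ) 1, 1 / (4 * ((n : ℝ) + 1)) ≤ ‖z + t • (u • z' - z)‖ := by
    intro t ht
    refine norm_ge_of_nsq ?_
    have e : z + t • (u • z' - z) = (1 - t) • z + t • (u • z') := by
      rw [smul_sub, sub_smul, one_smul]
      abel
    rw [e, nsq_comb, hip_smul]
    have h1 := nsq_ge hz
    have h2 := nsq_ge huz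
    have h3 : 0 ≤ 2 * (1 - t) * t * (u * hip z z').re :=
      mul_nonneg (mul_nonneg (by linarith [ht.2]) ht.1) hure
    have h4 : (1 - t) ^ 2 * (1 / 4) ≤ (1 - t) ^ 2 * nsq z :=
      mul_le_mul_of_nonneg_left h1 (sq_nonneg _)
    have h5 : t ^ 2 * (1 / 4) ≤ t ^ 2 * nsq (u • z') :=
      mul_le_mul_of_nonneg_left h2 (sq_nonneg _)
    nlinarith [sq_nonneg (2 * t - 1)]
  have h3 := hfar Φ h hEn z (u • z') hz huz hseg M _ hM hg
  have hJ := key Φ h hEn z' hz' M' hM'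
  have hn1 : ‖u⁻¹‖ = 1 := by rw [norm_inv, hu1, inv_one]
  have e : (↑M⁻¹ : EndW n) * (M' : EndW n) = (↑M⁻¹ : EndW n) *
      ((UC n u hu * M' * (UC n u hu)⁻¹ : (EndW n)ˣ) : EndW n) * ((mulC u : EndW n) *
        ((↑M'⁻¹ : EndW n) * mulC u⁻¹ * (M' : EndW n))) := by
    have e1 : (((UC n u hu)⁻¹ : (EndW n)ˣ) : EndW n) = mulC u⁻¹ := rfl
    have e2 : ((UC n u hu : (EndW n)ˣ) : EndW n) = mulC u := rfl
    have h5 : (mulC u⁻¹ : EndW n) * mulC u = 1 := by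
      rw [mulC_mul, inv_mul_cancel₀ hu, mulC_one]
    have h6 : (mulC u : EndW n) * mulC u⁻¹ = 1 := by
      rw [mulC_mul, mul_inv_cancel₀ hu, mulC_one]
    rw [Units.val_mul, Units.val_mul, e1, e2]
    calc (↑M⁻¹ : EndW n) * (M' : EndW n)
        = (↑M⁻¹ : EndW n) * (mulC u * ((M' : EndW n) * ((mulC u⁻¹ * mulC u) * (↑M'⁻¹ : EndW n))) *
          mulC u⁻¹) * (M' : EndW n) := by
          rw [h5, one_mul, Units.mul_inv, mul_one, h6, mul_one]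
      _ = _ := by simp only [mul_assoc]
  have hJ2 : ‖(↑M'⁻¹ : EndW n) * mulC u⁻¹ * (M' : EndW n)‖ ≤ 1 + Λ := by
    rw [jm_eq u⁻¹]
    refine (norm_add_le _ _).trans ?_
    rw [norm_smul, norm_smul, norm_one_EndW, mul_one]
    have a1 : ‖(u⁻¹).re‖ ≤ 1 := by
      rw [Real.norm_eq_abs, ← hn1]; exact Complex.abs_re_le_norm _
    have a2 : ‖(u⁻¹).im‖ ≤ 1 := by
      rw [Real.norm_eq_abs, ← hn1]; exact Complex.abs_im_le_norm _
    have a3 : ‖(u⁻¹).im‖ * ‖Jm M'‖ ≤ 1 * Λ :=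
      mul_le_mul a2 hJ (norm_nonneg _) zero_le_one
    linarith
  rw [e]
  calc _ ≤ ‖(↑M⁻¹ : EndW n) * ((UC n u hu * M' * (UC n u hu)⁻¹ : (EndW n)ˣ) : EndW n)‖ *
        ‖(mulC u : EndW n) * ((↑M'⁻¹ : EndW n) * mulC u⁻¹ * (M' : EndW n))‖ := norm_mul_le _ _
    _ ≤ Λ * (1 * (1 + Λ)) := by
        refine mul_le_mul h3 ?_ (norm_nonneg _) (by linarith)
        refine (norm_mul_le _ _).trans ?_
        rw [norm_mulC, hu1]
        exact mul_le_mul_of_nonneg_left hJ2 zero_le_one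
    _ = Λ * (1 + Λ) := by rw [one_mul]


theorem farseg_good (n : ℕ) : ∃ d : ℝ, 0 < d ∧ ∀ {ρ : ℝ}, 0 < ρ →
    ∃ Λ : ℝ, 1 ≤ Λ ∧ ∀ Φ : W n → W n, HLoc Φ → AnnGood Φ ρ d →
      ∀ z z' : W n, ‖z‖ = 1 / 2 → ‖z'‖ = 1 / 2 →
      (∀ t ∈ Icc (0 : ℝ) 1, 1 / (4 * ((n : ℝ) + 1)) ≤ ‖z + t • (z' - z)‖) →
      ∀ M M' : (EndW n)ˣ, Good Φ z ρ d M → Good Φ z' ρ d M' →
        ‖(↑M⁻¹ : EndW n) * (M' : EndW n)‖ ≤ Λ := by
  obtain ⟨d, hd, hnear⟩ := near n (K := 1) (τ := 1 / 8) le_rfl (by norm_num) (by norm_num)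
  refine ⟨d, hd, fun {ρ} hρ => ?_⟩
  have hK : (0 : ℝ) < (n : ℝ) + 1 := by positivity
  obtain ⟨m, hm⟩ := exists_nat_gt (2 / ρ)
  have hm0 : (0 : ℝ) < m := lt_trans (by positivity) hm
  have hmρ : 2 * (1 / (m : ℝ)) ≤ ρ := by
    rw [div_lt_iff₀ hρ] at hm
    rw [mul_one_div, div_le_iff₀ hm0]
    nlinarith
  refine ⟨(3 / 2) ^ (m + 1), one_le_pow₀ (by norm_num), fun Φ hΦ hP z z' hz hz' hseg M M' hM hM' => ?_⟩
  -- the points of the chain
  set x : ℕ → W n := fun j => z + ((j : ℝ) / m) • (z' - z) with hx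
  have hx0 : x 0 = z := by simp [hx]
  have hxm : x m = z' := by
    simp only [hx]
    rw [div_self hm0.ne', one_smul]
    abel
  have hdist : ∀ j : ℕ, ‖x j - x (j + 1)‖ ≤ 1 / m := by
    intro j
    have e : x j - x (j + 1) = (-(1 / (m : ℝ))) • (z' - z) := by
      simp only [hx]
      rw [add_sub_add_left_eq_sub, ← sub_smul]
      congr 1
      push_cast
      ring
    rw [e, norm_smul, norm_neg, Real.norm_of_nonneg (by positivity)]
    have : ‖z' - z‖ ≤ 1 := by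
      refine (norm_sub_le _ _).trans ?_
      rw [hz, hz']
      norm_num
    calc 1 / (m : ℝ) * ‖z' - z‖ ≤ 1 / m * 1 := by gcongr
      _ = 1 / m := mul_one _
  have hex : ∀ j : ℕ, j ≤ m → ∃ N : (EndW n)ˣ, Good Φ (x j) ρ d N := by
    intro j hj
    have h1 := hseg ((j : ℝ) / m) ⟨by positivity, by
      rw [div_le_one hm0]; exact_mod_cast hj⟩
    refine hP (x j) h1 ?_
    have ht1 : (j : ℝ) / m ≤ 1 := by
      rw [div_le_one hm0]
      exact_mod_cast hj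
    have ht0 : 0 ≤ (j : ℝ) / m := by positivity
    have e : x j = (1 - (j : ℝ) / m) • z + ((j : ℝ) / m) • z' := by
      simp only [hx]
      rw [smul_sub, sub_smul, one_smul]
      abel
    rw [e]
    refine (norm_add_le _ _).trans ?_
    rw [norm_smul, norm_smul, hz, hz', Real.norm_of_nonneg ht0, Real.norm_of_nonneg (by linarith)]
    linarith
  have key : ∀ j : ℕ, j ≤ m → ∀ N : (EndW n)ˣ, Good Φ (x j) ρ d N →
      ‖(↑M⁻¹ : EndW n) * (N : EndW n)‖ ≤ (3 / 2) ^ (j + 1) := by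
    intro j
    induction j with
    | zero =>
      intro _ N hN
      rw [hx0] at hN
      have h1 := hnear Φ hΦ z z ρ ρ hρ hρ (by linarith) (by linarith) (by simpa using hρ.le)
        (by simpa using hρ.le) M N hM hN
      calc ‖(↑M⁻¹ : EndW n) * (N : EndW n)‖ = ‖((↑M⁻¹ : EndW n) * (N : EndW n) - 1) + 1‖ := by
            rw [sub_add_cancel]
        _ ≤ 4 * (1 / 8) + 1 := (norm_add_le _ _).trans (by rw [norm_one]; linarith)
        _ = (3 / 2) ^ (0 + 1) := by rw [zero_add, pow_one]; norm_num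
    | succ j ih =>
      intro hj N hN
      obtain ⟨N₀, hN₀⟩ := hex j (by omega)
      have h0 := ih (by omega) N₀ hN₀
      have hd2 : 2 * ‖x j - x (j + 1)‖ ≤ ρ := le_trans (by
        have := hdist j
        linarith) hmρ
      have h1 := hnear Φ hΦ (x j) (x (j + 1)) ρ ρ hρ hρ (by linarith) (by linarith) hd2 hd2
        N₀ N hN₀ hN
      have e : (↑M⁻¹ : EndW n) * (N : EndW n) =
          ((↑M⁻¹ : EndW n) * (N₀ : EndW n)) * ((↑N₀⁻¹ : EndW n) * (N : EndW n)) := by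
        have e1 : (N₀ : EndW n) * (↑N₀⁻¹ : EndW n) = 1 := Units.mul_inv _
        calc (↑M⁻¹ : EndW n) * (N : EndW n) = (↑M⁻¹ : EndW n) * (1 * (N : EndW n)) := by rw [one_mul]
          _ = (↑M⁻¹ : EndW n) * ((N₀ : EndW n) * (↑N₀⁻¹ : EndW n) * (N : EndW n)) := by rw [e1]
          _ = _ := by simp only [mul_assoc]
      have h2 : ‖(↑N₀⁻¹ : EndW n) * (N : EndW n)‖ ≤ 3 / 2 := by
        calc ‖(↑N₀⁻¹ : EndW n) * (N : EndW n)‖ = ‖((↑N₀⁻¹ : EndW n) * (N : EndW n) - 1) + 1‖ := by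
              rw [sub_add_cancel]
          _ ≤ 4 * (1 / 8) + 1 := (norm_add_le _ _).trans (by rw [norm_one]; linarith)
          _ = 3 / 2 := by norm_num
      rw [e]
      calc _ ≤ ‖(↑M⁻¹ : EndW n) * (N₀ : EndW n)‖ * ‖(↑N₀⁻¹ : EndW n) * (N : EndW n)‖ :=
            norm_mul_le _ _
        _ ≤ (3 / 2) ^ (j + 1) * (3 / 2) := by gcongr
        _ = (3 / 2) ^ (j + 1 + 1) := (pow_succ _ _).symm
  exact key m le_rfl M' (by rw [hxm]; exact hM')

end Pool.Agent.Lib.P28h
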