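import Pool.Agent.Lib.P28e.Bound
import Pool.Agent.Lib.P28h.ExistsLift
import Mathlib.Analysis.SpecialFunctions.Pow.Integral

set_option autoImplicit false

/-!
# The critical energy of a lift is finite
-/

namespace Pool.Agent.Lib.P28h

open Pool.Agent.P28b04d Pool.Agent.Lib.P28e
open scoped ContDiff ENNReal
open Set Filter Topology Metric MeasureTheory

variable {n : ℕ} {Φ : W n → W n}

theorem cont_enorm_conn (h : HLoc Φ) : ContinuousOn (fun x : W n => ‖conn Φ x‖ₑ) {0}ᶜ :=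
  continuous_enorm.comp_continuousOn (continuousOn_conn h)

theorem enorm_toReal (a : W n →L[ℝ] EndW n) : ‖a‖ₑ.toReal = ‖a‖ := by
  rw [← ofReal_norm, ENNReal.toReal_ofReal (ContinuousLinearMap.opNorm_nonneg a)]

theorem enorm_ne (a : W n →L[ℝ] EndW n) : ‖a‖ₑ ≠ ⊤ := by
  rw [← ofReal_norm]
  exact ENNReal.ofReal_ne_top

theorem conn_bound (h : HLoc Φ) : ∃ C : ℝ, 0 ≤ C ∧ ∀ x : W n, x ≠ 0 → ‖conn Φ x‖ ≤ C * ‖x‖⁻¹ := by
  have hsub : sphere (0 : W n) 1 ⊆ {0}ᶜ := by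
    rintro x hx rfl
    simp at hx
  have hc : ContinuousOn (fun x : W n => ‖conn Φ x‖ₑ.toReal) (sphere (0 : W n) 1) :=
    ENNReal.continuousOn_toReal.comp ((cont_enorm_conn h).mono hsub) fun x _ => enorm_ne _
  obtain ⟨C, hC⟩ := (isCompact_sphere (0 : W n) 1).exists_bound_of_continuousOn hc
  have hC0 : ∀ x : W n, ‖x‖ = 1 → ‖conn Φ x‖ ≤ C := fun x hx => by
    have h1 := hC x (by simpa using hx)
    rw [Real.norm_of_nonneg ENNReal.toReal_nonneg, enorm_toReal] at h1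
    exact h1
  refine ⟨max C 0, le_max_right _ _, fun x hx => ?_⟩
  have hp := norm_pos_iff.2 hx
  have hc0 : ((‖x‖⁻¹ : ℝ) : ℂ) ≠ 0 := by exact_mod_cast (inv_pos.2 hp).ne'
  have hn : ‖((‖x‖⁻¹ : ℝ) : ℂ)‖ = ‖x‖⁻¹ := by
    rw [Complex.norm_real, Real.norm_eq_abs, abs_of_pos (inv_pos.2 hp)]
  have h1 := conn_smul h hc0 hx
  rw [hn, inv_inv] at h1
  have h2 := hC0 (((‖x‖⁻¹ : ℝ) : ℂ) • x) (by rw [norm_smul, hn, inv_mul_cancel₀ hp.ne'])
  rw [h1] at h2
  rw [← div_eq_mul_inv, le_div_iff₀ hp, mul_comm]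
  exact h2.trans (le_max_left _ _)

theorem energy_lt_top (h : HLoc Φ) : energy Φ < ⊤ := by
  obtain ⟨C, hC0, hC⟩ := conn_bound h
  have hfr : Module.finrank ℝ (W n) = 2 * n + 2 := finrank_W n
  have hint : IntegrableOn (fun x : W n => ‖conn Φ x‖ ^ (2 * n)) (ball 0 1) volume := by
    refine integrableOn_ball_of_norm_le_rpow (C := C ^ (2 * n)) (α := (2 * n : ℕ)) ?_ ?_ ?_ ?_
    · rw [hfr]; omega
    · rw [hfr]; push_cast; linarith
    · have h0 : ∀ᵐ x : W n ∂(volume.restrict (ball (0 : W n) 1)), x ≠ 0 :=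
        ae_restrict_of_ae (Measure.ae_ne volume (0 : W n))
      filter_upwards [h0] with x hx
      have hp := norm_pos_iff.2 hx
      have e1 : |‖conn Φ x‖ ^ (2 * n)| = ‖conn Φ x‖ ^ (2 * n) :=
        abs_of_nonneg (pow_nonneg (ContinuousLinearMap.opNorm_nonneg _) _)
      rw [Real.norm_eq_abs, e1, Real.rpow_neg hp.le, Real.rpow_natCast, ← inv_pow, ← mul_pow]
      exact pow_le_pow_left₀ (ContinuousLinearMap.opNorm_nonneg _) (hC x hx) _
    · have hm : Measurable fun x : W n => ‖conn Φ x‖ ^ (2 * n) := by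
        have h1 := (measurable_conn h).ennreal_toReal
        have e : (fun x : W n => ‖conn Φ x‖ ^ (2 * n)) =
            fun x => ((‖conn Φ x‖ₑ).toReal) ^ (2 * n) := by
          funext x
          rw [enorm_toReal]
        rw [e]
        exact h1.pow_const _
      exact hm.aestronglyMeasurable
  have h2 := hint.2
  unfold HasFiniteIntegral at h2
  unfold energy
  refine lt_of_le_of_lt (le_of_eq ?_) h2
  refine lintegral_congr fun x => ?_
  have h3 : (0 : ℝ) ≤ ‖conn Φ x‖ ^ (2 * n) := pow_nonneg (ContinuousLinearMap.opNorm_nonneg _) _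
  show ‖conn Φ x‖ₑ ^ (2 * n) = ‖‖conn Φ x‖ ^ (2 * n)‖ₑ
  rw [Real.enorm_eq_ofReal h3, ← ofReal_norm]
  exact (ENNReal.ofReal_pow (ContinuousLinearMap.opNorm_nonneg _) _).symm

end Pool.Agent.Lib.P28h
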