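import Pool.Agent.Lib.P28h.Top

set_option autoImplicit false

/-!
# The flatness scale of a diffeomorphism of complex projective space

A homogeneous lift `Φ` of a self-map of `CP^n` (smooth off `0`, `Φ (c z) = c Φ z`, injective real derivative) is
`Flat Φ κ e ε` if in every ball `B(z, ρ)`, `ρ ≤ κ |z|`, there is an invertible real matrix `M`, depending on the ball, with
`mean |M⁻¹ dΦ - 1| ≤ e`, and for `ρ = κ |z|` one with `mean |M⁻¹ dΦ - 1| ≤ ε`. There is a tolerance `ε`, depending only on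
`n`, such that at every scale `κ ≤ 1` the diffeomorphisms having a lift with `Flat Φ κ e ε`, `e < 1/2`, lie in finitely many
isotopy classes, and every diffeomorphism of `CP^n` homotopic to the identity (literally the hypotheses of S12917 for
`n = 2`) is `Flat Φ κ η η` at some scale for every `η > 0`.
-/

open MeasureTheory Metric

namespace Pool.Agent.Lib.P28h.FlatnessScale

open Pool.Agent.P28b04d Pool.Agent.Lib.P28e Pool.Agent.Lib.P28g Pool.Agent.Lib.P28h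

theorem result (n : ℕ) : ∃ ε : ℝ, 0 < ε ∧
    (∀ κ : ℝ, 0 < κ → κ ≤ 1 →
      ∃ S : Set ((Fin (n + 1) → Fin (n + 1) → ℂ) → (Fin (n + 1) → Fin (n + 1) → ℂ)), S.Finite ∧
      ∀ F : (Fin (n + 1) → Fin (n + 1) → ℂ) → (Fin (n + 1) → Fin (n + 1) → ℂ), Set.InjOn F (CP n) →
        ∀ e : ℝ, e < 1 / 2 →
        (∃ Φ : W n → W n, HLoc Φ ∧ Flat Φ κ e ε ∧ ∀ z : W n, z ≠ 0 → F (pt z) = pt (Φ z)) →
        ∃ G ∈ S, Isotopic n F G) ∧
    ∀ (F G : (Fin (n + 1) → Fin (n + 1) → ℂ) → (Fin (n + 1) → Fin (n + 1) → ℂ))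
      (H : ℝ × (Fin (n + 1) → Fin (n + 1) → ℂ) → (Fin (n + 1) → Fin (n + 1) → ℂ)),
      ContDiff ℝ (⊤ : ℕ∞) F → ContDiff ℝ (⊤ : ℕ∞) G →
      (∀ P ∈ CP n, F P ∈ CP n) → (∀ P ∈ CP n, G (F P) = P) →
      ContinuousOn H (Set.Icc (0 : ℝ) 1 ×ˢ CP n) →
      (∀ t ∈ Set.Icc (0 : ℝ) 1, ∀ P ∈ CP n, H (t, P) ∈ CP n) →
      (∀ P ∈ CP n, H (0, P) = P) → (∀ P ∈ CP n, H (1, P) = F P) →
      Set.InjOn F (CP n) ∧ ∀ η : ℝ, 0 < η → ∃ κ : ℝ, 0 < κ ∧ κ ≤ 1 ∧ ∃ Φ : W n → W n, HLoc Φ ∧ Flat Φ κ η η ∧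
        ∀ z : W n, z ≠ 0 → F (pt z) = pt (Φ z) := by
  obtain ⟨ε, hε, h2, h3⟩ := top_fin n
  refine ⟨ε, hε, h2, fun F G H hF hG hFm hGF hH hHm hH0 hH1 => ⟨?_, h3 F G H hF hG hFm hGF hH hHm hH0 hH1⟩⟩
  intro P hP Q hQ hPQ
  rw [← hGF P hP, ← hGF Q hQ, hPQ]

end Pool.Agent.Lib.P28h.FlatnessScale
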