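import Pool.Agent.Lib.P28c.VC
import Pool.Agent.Lib.P28c.Key

set_option autoImplicit false

/-!
# `Φ` is connected with its averages of variable radius: tolerance below one half

Variant of `Pool.Agent.Lib.P28c.VConn` with the constant `1 / 8` replaced by any constant less than `1 / 2`.

PROOF. The family `(t, z) ↦ VAvg Φ (smoothTransition t * τ) z` is a `Fam`: smooth by `vavg_smooth`, homogeneous by `vavg_hom`; the derivative in `z` is
injective: for `τ z = 0` or `smoothTransition t = 0` it is `dΦ_z`, otherwise `vavg_close` with `Good` at the scale `smoothTransition t * τ z`.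
-/

open MeasureTheory Set Metric
open scoped ENNReal ContDiff

namespace Pool.Agent.Lib.P28h

open Pool.Agent.P28b04d Pool.Agent.Lib.P28e Pool.Agent.Lib.P28c

variable {n : ℕ} {Φ : W n → W n} {τ : W n → ℝ}

theorem vavg_conn_half (h : HLoc Φ) (hτ : Tau τ) {e : ℝ} (he : e < 1 / 2) (hg : ∀ z : W n, z ≠ 0 → τ z = 0 ∨
    ∀ ρ : ℝ, 0 < ρ → ρ ≤ τ z → ∃ M : (EndW n)ˣ, Good Φ z ρ e M) :
    Conn Φ (VAvg Φ τ) := by
  refine ⟨fun p => VAvg Φ (fun z => Real.smoothTransition p.1 * τ z) p.2, ⟨?_, ?_, ?_⟩, ?_, ?_⟩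
  · have h1 : ContDiffOn ℝ ∞ (fun p : ℝ × W n => (Real.smoothTransition p.1, p.2))
        (univ ×ˢ {0}ᶜ) :=
      ((Real.smoothTransition.contDiff.comp contDiff_fst).prodMk contDiff_snd).contDiffOn
    refine (vavg_smooth h hτ).comp h1 ?_
    rintro ⟨t, z⟩ ⟨-, hz⟩
    have h2 := Real.smoothTransition.nonneg t
    have h3 := Real.smoothTransition.le_one t
    exact ⟨⟨by linarith, by linarith⟩, hz⟩
  · intro t c z
    exact vavg_hom h hτ _ c z
  · intro t z hz v hv
    set s : ℝ := Real.smoothTransition t with hs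
    have hs0 : 0 ≤ s := Real.smoothTransition.nonneg t
    have hs1 : s ≤ 1 := Real.smoothTransition.le_one t
    have hv' : fderiv ℝ (VAvg Φ (fun z => s * τ z)) z v = 0 := hv
    rcases (hτ.nonneg z).eq_or_lt with h0 | h0
    · rw [vavg_fderiv_zero h hτ hs0 hs1 hz h0.symm] at hv'
      exact h.inj z hz v hv'
    rcases hs0.eq_or_lt with h1 | h1
    · have e : VAvg Φ (fun z => s * τ z) = Φ := by
        funext w
        exact vavg_zero Φ (by rw [← h1, zero_mul])
      rw [e] at hv'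
      exact h.inj z hz v hv'
    · rcases hg z hz with h2 | h2
      · exact absurd h2 h0.ne'
      obtain ⟨M, hM⟩ := h2 (s * τ z) (mul_pos h1 h0) (by nlinarith)
      have he0 : (0 : ℝ) ≤ max e 0 := le_max_right _ _
      have he1 : max e 0 < 1 / 2 := max_lt he (by norm_num)
      have h3 := vavg_close h hτ h1 hs1 hz h0 he0 (ChnAux.good_mono hM (le_max_left _ _))
      have h4 := ContinuousLinearMap.le_opNorm ((↑M⁻¹ : EndW n) *
        fderiv ℝ (VAvg Φ (fun z => s * τ z)) z - 1) v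
      have h5 : ((↑M⁻¹ : EndW n) * fderiv ℝ (VAvg Φ (fun z => s * τ z)) z - 1) v = -v := by
        show (↑M⁻¹ : EndW n) (fderiv ℝ (VAvg Φ (fun z => s * τ z)) z v) - v = -v
        rw [hv', map_zero, zero_sub]
      rw [h5, norm_neg] at h4
      have h6 : ‖v‖ ≤ 2 * max e 0 * ‖v‖ :=
        h4.trans (mul_le_mul_of_nonneg_right h3 (norm_nonneg _))
      have h7 : ‖v‖ = 0 := by nlinarith [norm_nonneg v]
      exact norm_eq_zero.1 h7
  · intro t ht z
    exact vavg_zero Φ (by rw [Real.smoothTransition.zero_of_nonpos ht, zero_mul])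
  · intro t ht z
    show VAvg Φ (fun z => Real.smoothTransition t * τ z) z = VAvg Φ τ z
    rw [Real.smoothTransition.one_of_one_le ht]
    simp only [one_mul]

theorem vavg_hloc_half (h : HLoc Φ) (hτ : Tau τ) {e : ℝ} (he : e < 1 / 2) (hg : ∀ z : W n, z ≠ 0 → τ z = 0 ∨
    ∀ ρ : ℝ, 0 < ρ → ρ ≤ τ z → ∃ M : (EndW n)ˣ, Good Φ z ρ e M) :
    HLoc (VAvg Φ τ) := by
  obtain ⟨Λ, hΛ, -, h1⟩ := vavg_conn_half h hτ he hg
  have := hΛ.hloc 1
  have e : (fun z => Λ (1, z)) = VAvg Φ τ := funext fun z => h1 1 le_rfl z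
  rwa [e] at this

end Pool.Agent.Lib.P28h
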