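import Pool.Agent.Lib.P28h.LocP
import Pool.Agent.Lib.P28h.VHalf

set_option autoImplicit false

/-!
# Mean flat lifts: finitely many classes
-/

open MeasureTheory Set Metric
open scoped ENNReal ContDiff

namespace Pool.Agent.Lib.P28h

open Pool.Agent.P28b04d Pool.Agent.Lib.P28e Pool.Agent.Lib.P28c

variable {n : ℕ}

/-- `Good` in a ball inside the ball of radius `κ |z|`. -/
theorem good_sub {Φ : W n → W n} {z : W n} {κ ε K ρ : ℝ} {M : (EndW n)ˣ} (hρ : 0 < ρ) (hρ1 : ρ ≤ κ * ‖z‖)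
    (hε : 0 ≤ ε) (hK : κ * ‖z‖ ≤ K * ρ) {d : ℝ} (hd : ε * K ^ (2 * n + 2) ≤ d) (h : Good Φ z (κ * ‖z‖) ε M) :
    Good Φ z ρ d M :=
  ChnAux.good_mono (P28e.good_mono hρ hρ1 hε hK h) hd

theorem keyP (n : ℕ) {t₀ : ℝ} (ht₀ : 0 < t₀) (I : Finset (Mat n)) (hIne : I.Nonempty)
    (hICP : ∀ p ∈ I, p ∈ CP n) : ∃ ε : ℝ, 0 < ε ∧ ∀ {κ : ℝ}, 0 < κ → κ ≤ 1 →
    ∃ 𝒢 : Set (W n → W n), 𝒢.Finite ∧ (∀ G ∈ 𝒢, HLoc G ∧ Function.Injective G) ∧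
    ∀ Φ : W n → W n, HLoc Φ → Function.Injective Φ → (∃ e : ℝ, e < 1 / 2 ∧ MeanFlat Φ κ e) →
    FlatAt Φ κ ε →
    ∃ G ∈ 𝒢, ∃ Ψ : W n → W n, HLoc Ψ ∧ Function.Injective Ψ ∧ Conn Φ (fun z => G (Ψ z)) ∧
      ∀ z : W n, z ≠ 0 → (∃ p ∈ I, fd (pt z) p ≤ t₀) → Ψ z = z := by
  classical
  obtain ⟨ε, hε, hε1, hloc⟩ := locP n
  obtain ⟨χ, L, hL, hχ, hχ1, hχ0⟩ := exists_cut n I (t := 4 * t₀) (by positivity)
  obtain ⟨χ', L', hL', hχ', hχ'1, hχ'0⟩ := exists_cut n I ht₀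
  set K : ℝ := (n : ℝ) + 1 with hKdef
  have hK1 : 1 ≤ K := by rw [hKdef]; have : (0 : ℝ) ≤ n := Nat.cast_nonneg n; linarith
  have hK0 : 0 < K := by linarith
  set B : ℝ := 8 * K * (L + 1) with hB
  have hB0 : 0 < B := by positivity
  have hB8 : 8 * K ≤ B := by
    rw [hB]
    have : 0 ≤ 8 * K := by positivity
    nlinarith
  refine ⟨ε / B ^ (2 * n + 2), by positivity, fun {κ} hκ hκ1 => ?_⟩
  have hεB : ε / B ^ (2 * n + 2) * B ^ (2 * n + 2) ≤ ε := le_of_eq (by field_simp)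
  set r : ℝ := κ / B with hrdef
  have hr : 0 < r := by positivity
  have hrB : r * B = κ := by rw [hrdef]; field_simp
  have hr1 : r * (8 * K * (L + 1)) ≤ 1 := by
    show r * B ≤ 1
    rw [hrB]
    exact hκ1
  have hr8 : r * (8 * K) ≤ κ := by
    rw [← hrB]
    gcongr
  have hr2 : r * K ≤ κ := by nlinarith
  have hr3 : r * (8 * K) ≤ 1 := hr8.trans hκ1
  set δ : ℝ := min (min (r / 8) (1 / 4)) (min (t₀ / (4 * K)) (1 / (8 * (L' + 1)))) with hδdef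
  have hδ : 0 < δ := by positivity
  have hδ1 : 8 * δ ≤ r := by
    have : δ ≤ r / 8 := (min_le_left _ _).trans (min_le_left _ _)
    linarith
  have hδ2 : δ ≤ 1 / 4 := (min_le_left _ _).trans (min_le_right _ _)
  have hδ3 : 4 * K * δ ≤ t₀ := by
    have : δ ≤ t₀ / (4 * K) := (min_le_right _ _).trans (min_le_left _ _)
    calc 4 * K * δ ≤ 4 * K * (t₀ / (4 * K)) := by gcongr
      _ = t₀ := by field_simp
  have hδ4 : δ * (8 * (L' + 1)) ≤ 1 := by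
    have : δ ≤ 1 / (8 * (L' + 1)) := (min_le_right _ _).trans (min_le_right _ _)
    calc δ * (8 * (L' + 1)) ≤ 1 / (8 * (L' + 1)) * (8 * (L' + 1)) := by gcongr
      _ = 1 := by field_simp
  obtain ⟨N, hN1, hN⟩ := exists_netW n hδ
  set G : Finset (W n) := N.filter (fun g => ∃ p ∈ I, fd (pt g) p < 3 * t₀) with hGdef
  have hGhalf : ∀ g ∈ G, ‖g‖ = 1 / 2 := fun g hg => hN1 g (Finset.mem_filter.1 hg).1
  -- closeness in `fd`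
  have hfd : ∀ x g : W n, ‖g‖ = 1 / 2 → ‖x - g‖ ≤ δ → fd (pt x) (pt g) ≤ t₀ := by
    intro x g hg hx
    have hx0 := ne_zero_of_half hg hx hδ2
    have hg0 : g ≠ 0 := by
      rintro rfl
      rw [norm_zero] at hg
      norm_num at hg
    have h1 := fd_pt_le hx0 hg0
    rw [hg] at h1
    calc fd (pt x) (pt g) ≤ 2 * K * ‖x - g‖ / (1 / 2) := h1
      _ = 4 * K * ‖x - g‖ := by ring
      _ ≤ 4 * K * δ := by gcongr
      _ ≤ t₀ := hδ3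
  -- the net reaches all points near `I`
  have hreach : ∀ z : W n, z ≠ 0 → (∃ p ∈ I, fd (pt z) p < 2 * t₀) →
      ∃ c : ℂ, c ≠ 0 ∧ ∃ g ∈ G, ‖c • z - g‖ ≤ δ := by
    rintro z hz ⟨p, hp, hzp⟩
    obtain ⟨hc, hw, hwpt⟩ := half_point hz
    obtain ⟨g, hg, hgd⟩ := hN _ hw
    refine ⟨_, hc, g, ?_, hgd⟩
    rw [hGdef, Finset.mem_filter]
    refine ⟨hg, p, hp, ?_⟩
    have h1 := hfd _ g (hN1 g hg) hgd
    have h2 := fd_triangle (pt g) (pt (((2 * ‖z‖ : ℝ) : ℂ)⁻¹ • z)) p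
    rw [hwpt] at h1 h2
    rw [fd_comm (pt g) (pt z)] at h2
    linarith
  have hGne : ∃ g₀, g₀ ∈ G := by
    obtain ⟨p, hp⟩ := hIne
    obtain ⟨z, hz, hpz⟩ := exists_pt (hICP p hp)
    obtain ⟨c, _, g, hg, _⟩ := hreach z hz ⟨p, hp, by rw [← hpz, fd_self]; positivity⟩
    exact ⟨g, hg⟩
  obtain ⟨g₀, hg₀⟩ := hGne
  set τ : W n → ℝ := fun z => r * χ z * rad z with hτdef
  have hτ : Tau τ := tau_cut hL hχ hr hr1
  obtain ⟨Λ, hΛ, hloc2⟩ := hloc hr hr3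
  -- the class
  set 𝒞 : Set (W n → W n) := {Φ | HLoc Φ ∧ Function.Injective Φ ∧
    (∃ e : ℝ, e < 1 / 2 ∧ MeanFlat Φ κ e) ∧ FlatAt Φ κ (ε / B ^ (2 * n + 2))} with h𝒞
  have hτle : ∀ x : W n, r * rad x ≤ κ * ‖x‖ := by
    intro x
    calc r * rad x ≤ r * (K * ‖x‖) := by
          have := rad_le x
          gcongr
      _ = (r * K) * ‖x‖ := by ring
      _ ≤ κ * ‖x‖ := by gcongr
  have hgτ : ∀ Φ ∈ 𝒞, ∃ e : ℝ, e < 1 / 2 ∧ ∀ z : W n, z ≠ 0 → τ z = 0 ∨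
      ∀ ρ : ℝ, 0 < ρ → ρ ≤ τ z → ∃ M : (EndW n)ˣ, Good Φ z ρ e M := by
    intro Φ hΦ
    obtain ⟨e, he, hflat⟩ := hΦ.2.2.1
    refine ⟨e, he, fun z hz => ?_⟩
    by_cases hp : ∃ p ∈ I, fd (pt z) p < 8 * t₀
    · right
      intro ρ hρ hρτ
      have hrad : 0 ≤ rad z := Real.sqrt_nonneg _
      have h1 : ρ ≤ κ * ‖z‖ := by
        refine hρτ.trans (le_trans ?_ (hτle z))
        show r * χ z * rad z ≤ r * rad z
        have h2 := hχ.le_one z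
        have h3 : r * χ z ≤ r * 1 := by gcongr
        rw [mul_one] at h3
        gcongr
      exact hflat z hz ρ hρ h1
    · left
      push Not at hp
      show r * χ z * rad z = 0
      rw [hχ0 z hz fun p hpI => by have := hp p hpI; linarith, mul_zero, zero_mul]
  have hvc : ∀ Φ ∈ 𝒞, Conn Φ (VAvg Φ τ) := fun Φ hΦ => by
    obtain ⟨e, he, hg⟩ := hgτ Φ hΦ
    exact vavg_conn_half hΦ.1 hτ he hg
  have hvl : ∀ Φ ∈ 𝒞, HLoc (VAvg Φ τ) := fun Φ hΦ => by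
    obtain ⟨e, he, hg⟩ := hgτ Φ hΦ
    exact vavg_hloc_half hΦ.1 hτ he hg
  have hA : ∀ Φ ∈ 𝒞, ∃ A : W n → (EndW n)ˣ, Dat (VAvg Φ τ) G δ Λ A := by
    intro Φ hΦ
    have hann : AnnGood Φ (r / 2) ε := by
      intro x hx hx1
      have hxp : 0 < ‖x‖ := lt_of_lt_of_le (by positivity) hx
      obtain ⟨M, hM⟩ := hΦ.2.2.2 x (norm_pos_iff.1 hxp)
      have hx' : 1 ≤ (4 * K) * ‖x‖ := by
        rw [div_le_iff₀ (by positivity)] at hx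
        linarith
      refine ⟨M, good_sub (K := B) (by positivity) ?_ (by positivity) ?_ hεB hM⟩
      · calc r / 2 ≤ r / 2 * ((4 * K) * ‖x‖) := by nlinarith
          _ ≤ (r * (8 * K)) * ‖x‖ := by nlinarith [mul_pos (mul_pos hr hK0) hxp]
          _ ≤ κ * ‖x‖ := by gcongr
      · calc κ * ‖x‖ ≤ κ * (1 / 2) := by gcongr
          _ = B * (r / 2) := by rw [← hrB]; ring
    refine hloc2 hτ hΦ.1 hann (hvl Φ hΦ) hGhalf hδ hδ1 hδ2 ?_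
    intro g hg x hx
    have hx0 := ne_zero_of_half (hGhalf g hg) hx hδ2
    obtain ⟨p, hp, hgp⟩ := (Finset.mem_filter.1 hg).2
    have h1 := hfd x g (hGhalf g hg) hx
    have h2 := fd_triangle (pt x) (pt g) p
    refine ⟨hχ1 x hx0 ⟨p, hp, by linarith⟩, ?_⟩
    have hradx : 0 < rad x := Close46.rad_pos hx0
    obtain ⟨M, hM⟩ := hΦ.2.2.2 x hx0
    refine ⟨M, good_sub (K := B) (by positivity) (hτle x) (by positivity) ?_ hεB hM⟩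
    calc κ * ‖x‖ ≤ κ * rad x := by
          have := norm_le_rad x
          gcongr
      _ = B * (r * rad x) := by rw [← hrB]; ring
  choose! A hA using hA
  set D : (W n → W n) → EndW n × (G → EndW n) := fun Φ =>
    (Jm (A Φ g₀), fun g => (↑(A Φ g₀)⁻¹ : EndW n) * (A Φ g : EndW n)) with hD
  set η : ℝ := 1 / (Λ ^ 3 * (32 * (L' + 1))) with hηdef
  have hΛ0 : 0 < Λ := by linarith
  have hη : 0 < η := by positivity
  have hη1 : η * (Λ ^ 3 * (32 * (L' + 1))) ≤ 1 := by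
    rw [hηdef]
    exact le_of_eq (by field_simp)
  have hDB : ∀ Φ ∈ 𝒞, ‖D Φ‖ ≤ Λ := by
    intro Φ hΦ
    rw [hD, Prod.norm_def, max_le_iff]
    refine ⟨(hA Φ hΦ).farJ g₀ hg₀, ?_⟩
    rw [pi_norm_le_iff_of_nonneg hΛ0.le]
    rintro ⟨g, hg⟩
    exact (hA Φ hΦ).far g₀ hg₀ g hg
  obtain ⟨T, hT𝒞, hTfin, hT⟩ := pack 𝒞 D hDB hη
  refine ⟨(fun Φ => VAvg Φ τ) '' T, hTfin.image _, ?_, ?_⟩
  · rintro _ ⟨y, hy, rfl⟩
    have hy𝒞 := hT𝒞 hy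
    exact ⟨hvl y hy𝒞, conn_inj (hvc y hy𝒞) hy𝒞.2.1⟩
  · intro Φ hΦ1 hΦ2 hΦ3 hΦ4
    have hΦ : Φ ∈ 𝒞 := ⟨hΦ1, hΦ2, hΦ3, hΦ4⟩
    obtain ⟨y, hy, hyΦ⟩ := hT Φ hΦ
    have hy𝒞 := hT𝒞 hy
    have hconn := hvc Φ hΦ
    have hyl := hvl y hy𝒞
    have hyi := conn_inj (hvc y hy𝒞) hy𝒞.2.1
    have hpair : ‖Jm (A y g₀) - Jm (A Φ g₀)‖ ≤ η ∧
        ∀ g ∈ G, ‖(↑(A y g₀)⁻¹ : EndW n) * (A y g : EndW n) -
          (↑(A Φ g₀)⁻¹ : EndW n) * (A Φ g : EndW n)‖ ≤ η := by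
      rw [norm_sub_rev, hD, Prod.norm_def, max_le_iff] at hyΦ
      refine ⟨hyΦ.1, fun g hg => ?_⟩
      exact (pi_norm_le_iff_of_nonneg hη.le).1 hyΦ.2 ⟨g, hg⟩
    obtain ⟨Φ₃, h31, h32, h33⟩ := pair (hA y hy𝒞) (hA Φ hΦ) hGhalf hg₀ hL' hχ' (fun z hz hz' => by
      refine hreach z hz ?_
      by_contra hcon
      push Not at hcon
      exact hz' (hχ'0 z hz fun p hp => hcon p hp)) hδ hδ4 hη.le hΛ hη1 hpair.1 hpair.2
    have hc3 : Conn Φ Φ₃ := hconn.trans h32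
    have h3i := conn_inj hc3 hΦ2
    obtain ⟨Ψ, hΨ1, hΨ2, hΨ3, hΨ4⟩ := factor hyl hyi h31 h3i
    refine ⟨VAvg y τ, ⟨y, hy, rfl⟩, Ψ, hΨ1, hΨ2, ?_, fun z hz hzI => ?_⟩
    · have e : (fun z => VAvg y τ (Ψ z)) = Φ₃ := funext hΨ3
      rw [e]
      exact hc3
    · exact hΨ4 z (h33 z hz (hχ'1 z hz hzI))

end Pool.Agent.Lib.P28h
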