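import Pool.Agent.Lib.P28h.FarP

set_option autoImplicit false

/-!
# The averaged lift has data at the net (mean flat version)
-/

open MeasureTheory Set Metric
open scoped ENNReal ContDiff

namespace Pool.Agent.Lib.P28h

open Pool.Agent.P28b04d Pool.Agent.Lib.P28e Pool.Agent.Lib.P28c

/-- For a dimensional tolerance `ε`: if `Φ` is `Good` at all points near the net `G` at all scales up to `r rad`, and the
radius function is `r rad` there, the average has data. -/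
theorem locP (n : ℕ) : ∃ ε : ℝ, 0 < ε ∧ ε ≤ 1 / 1024 ∧
    ∀ {r : ℝ}, 0 < r → r * (8 * ((n : ℝ) + 1)) ≤ 1 → ∃ Λ : ℝ, 1 ≤ Λ ∧
    ∀ {χ : W n → ℝ}, Tau (fun z => r * χ z * rad z) →
    ∀ {Φ : W n → W n}, HLoc Φ → AnnGood Φ (r / 2) ε →
    HLoc (VAvg Φ (fun z => r * χ z * rad z)) →
    ∀ {G : Finset (W n)} {δ : ℝ}, (∀ g ∈ G, ‖g‖ = 1 / 2) → 0 < δ → 8 * δ ≤ r → δ ≤ 1 / 4 →
    (∀ g ∈ G, ∀ x : W n, ‖x - g‖ ≤ δ → χ x = 1 ∧
      ∃ M : (EndW n)ˣ, Good Φ x (r * rad x) ε M) →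
    ∃ A : W n → (EndW n)ˣ, Dat (VAvg Φ (fun z => r * χ z * rad z)) G δ Λ A := by
  classical
  set K : ℝ := (n : ℝ) + 1 with hKdef
  have hK1 : 1 ≤ K := by rw [hKdef]; have : (0 : ℝ) ≤ n := Nat.cast_nonneg n; linarith
  have hK0 : 0 < K := by linarith
  obtain ⟨δn, hδn, hnear⟩ := near n (K := 4 * K) (τ := 1 / 256) (by linarith) (by norm_num)
    (by norm_num)
  obtain ⟨d, hd, hfs⟩ := farseg_good n
  set ε : ℝ := min (min δn (1 / 1024)) (min d (d / K ^ (2 * n + 2))) with hεdef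
  have hε : 0 < ε := by positivity
  have hε1 : ε ≤ 1 / 1024 := (min_le_left _ _).trans (min_le_right _ _)
  have hεn : ε ≤ δn := (min_le_left _ _).trans (min_le_left _ _)
  have hεd : ε ≤ d := (min_le_right _ _).trans (min_le_left _ _)
  have hεK : ε * K ^ (2 * n + 2) ≤ d := by
    have h1 : ε ≤ d / K ^ (2 * n + 2) := (min_le_right _ _).trans (min_le_right _ _)
    calc ε * K ^ (2 * n + 2) ≤ d / K ^ (2 * n + 2) * K ^ (2 * n + 2) := by gcongr
      _ = d := by field_simp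
  refine ⟨ε, hε, hε1, fun {r} hr hr1 => ?_⟩
  obtain ⟨Λ₀, hΛ₀, hfs'⟩ := hfs (ρ := r / 2) (by positivity)
  have hfar := farP n (fun Φ => AnnGood Φ (r / 2) d) (d := d) (ρ := r / 2) (Λ := Λ₀) (by
    rw [le_div_iff₀ (by positivity)]
    have : r * (8 * K) = r * (8 * ((n : ℝ) + 1)) := rfl
    nlinarith) hΛ₀ hfs'
  set Λ : ℝ := Λ₀ * (1 + Λ₀) with hΛdef
  have hΛ : 1 ≤ Λ := by nlinarith
  refine ⟨4 * Λ, by linarith, ?_⟩
  intro χ hτ Φ hΦ hΦE' hΨ G δ hG hδ hδr hδ4 hgood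
  have hΦE : AnnGood Φ (r / 2) d := fun z hz hz1 => by
    obtain ⟨M, hM⟩ := hΦE' z hz hz1
    exact ⟨M, ChnAux.good_mono hM hεd⟩
  set τ : W n → ℝ := fun z => r * χ z * rad z with hτdef
  set Ψ : W n → W n := VAvg Φ τ with hΨdef
  have hx0 : ∀ g ∈ G, ∀ x : W n, ‖x - g‖ ≤ δ → x ≠ 0 ∧ 1 / 4 ≤ ‖x‖ ∧ ‖x‖ ≤ 3 / 4 := by
    intro g hg x hx
    have h1 : ‖g‖ ≤ ‖x‖ + ‖x - g‖ := by
      calc ‖g‖ = ‖x - (x - g)‖ := by rw [sub_sub_cancel]
        _ ≤ _ := norm_sub_le _ _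
    have h3 : ‖x‖ ≤ ‖g‖ + ‖x - g‖ := by
      calc ‖x‖ = ‖g + (x - g)‖ := by rw [add_sub_cancel]
        _ ≤ _ := norm_add_le _ _
    rw [hG g hg] at h1 h3
    have h2 : 1 / 4 ≤ ‖x‖ := by linarith
    refine ⟨?_, h2, by linarith⟩
    rintro rfl
    rw [norm_zero] at h2
    norm_num at h2
  have hgg : ∀ g : W n, ‖g - g‖ ≤ δ := fun g => by rw [sub_self, norm_zero]; exact hδ.le
  -- closeness to the matrix of `Good`
  have hclose : ∀ g ∈ G, ∀ x : W n, ‖x - g‖ ≤ δ → ∃ M : (EndW n)ˣ, Good Φ x (r * rad x) ε M ∧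
      ‖(↑M⁻¹ : EndW n) * fderiv ℝ Ψ x - 1‖ ≤ 1 / 512 := by
    intro g hg x hx
    obtain ⟨hχ, M, hM⟩ := hgood g hg x hx
    obtain ⟨hxne, -, -⟩ := hx0 g hg x hx
    have hradx : 0 < rad x := Close46.rad_pos hxne
    have hτx : τ x = r * rad x := by
      show r * χ x * rad x = r * rad x
      rw [hχ, mul_one]
    refine ⟨M, hM, ?_⟩
    have h1 := vavg_close hΦ hτ (t := 1) one_pos le_rfl hxne (by
      show 0 < τ x
      rw [hτx]; positivity) hε.le (M := M) (by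
      rw [one_mul]
      show Good Φ x (τ x) ε M
      rw [hτx]; exact hM)
    simp only [one_mul] at h1
    refine h1.trans ?_
    linarith
  -- the matrices
  have hA : ∀ g : W n, ∃ A : (EndW n)ˣ, g ∈ G → (A : EndW n) = fderiv ℝ Ψ g := by
    intro g
    by_cases hg : g ∈ G
    · obtain ⟨A, hA⟩ := isUnit_fderiv hΨ (hx0 g hg g (hgg g)).1
      exact ⟨A, fun _ => hA⟩
    · exact ⟨1, fun h => absurd h hg⟩
  choose A hA using hA
  have hMg : ∀ g : W n, ∃ M : (EndW n)ˣ, g ∈ G → Good Φ g (r * rad g) ε M ∧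
      ‖(↑M⁻¹ : EndW n) * (A g : EndW n) - 1‖ ≤ 1 / 512 := by
    intro g
    by_cases hg : g ∈ G
    · obtain ⟨M, hM1, hM2⟩ := hclose g hg g (hgg g)
      exact ⟨M, fun _ => ⟨hM1, by rw [hA g hg]; exact hM2⟩⟩
    · exact ⟨1, fun h => absurd h hg⟩
  choose Mg hMg using hMg
  have hAM : ∀ g ∈ G, ‖(↑(A g)⁻¹ : EndW n) * (Mg g : EndW n) - 1‖ ≤ 1 / 256 := fun g hg => by
    have := inv_close (Mg g) (A g) (by norm_num) (hMg g hg).2
    linarith
  -- `Good` at the common scale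
  have hcommon : ∀ g ∈ G, Good Φ g (r / 2) d (Mg g) := by
    intro g hg
    have h1 := rad_le g
    have h2 := norm_le_rad g
    rw [hG g hg] at h1 h2
    have h3 := P28e.good_mono (ρ' := r / 2) (ρ := r * rad g) (K := K) (by positivity)
      (by nlinarith) hε.le (by nlinarith) (hMg g hg).1
    exact ChnAux.good_mono h3 hεK
  refine ⟨A, hΨ, fun g hg => hA g hg, ?_, ?_, ?_⟩
  · intro g hg x hx
    obtain ⟨Mx, hMx1, hMx2⟩ := hclose g hg x hx
    obtain ⟨hxne, hx1, hx2⟩ := hx0 g hg x hx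
    have hrx1 := rad_le x
    have hrx2 := norm_le_rad x
    have hrg1 := rad_le g
    have hrg2 := norm_le_rad g
    rw [hG g hg] at hrg1 hrg2
    have hn1 := hnear Φ hΦ g x (r * rad g) (r * rad x)
      (mul_pos hr (by linarith)) (mul_pos hr (by linarith))
      (by
        have h1 : rad g ≤ 4 * K * rad x := by nlinarith
        calc r * rad g ≤ r * (4 * K * rad x) := by gcongr
          _ = 4 * K * (r * rad x) := by ring)
      (by
        have h1 : rad x ≤ 4 * K * rad g := by nlinarith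
        calc r * rad x ≤ r * (4 * K * rad g) := by gcongr
          _ = 4 * K * (r * rad g) := by ring)
      (by
        rw [norm_sub_rev]
        nlinarith)
      (by
        rw [norm_sub_rev]
        nlinarith)
      (Mg g) Mx (ChnAux.good_mono (hMg g hg).1 hεn) (ChnAux.good_mono hMx1 hεn)
    have e : (↑(A g)⁻¹ : EndW n) * fderiv ℝ Ψ x =
        ((↑(A g)⁻¹ : EndW n) * (Mg g : EndW n)) *
          (((↑(Mg g)⁻¹ : EndW n) * (Mx : EndW n)) * ((↑Mx⁻¹ : EndW n) * fderiv ℝ Ψ x)) := by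
      have e1 : (Mx : EndW n) * (↑Mx⁻¹ : EndW n) = 1 := Units.mul_inv _
      have e2 : (Mg g : EndW n) * (↑(Mg g)⁻¹ : EndW n) = 1 := Units.mul_inv _
      calc (↑(A g)⁻¹ : EndW n) * fderiv ℝ Ψ x
          = (↑(A g)⁻¹ : EndW n) * (1 * (1 * fderiv ℝ Ψ x)) := by rw [one_mul, one_mul]
        _ = (↑(A g)⁻¹ : EndW n) * ((Mg g : EndW n) * (↑(Mg g)⁻¹ : EndW n) *
              ((Mx : EndW n) * (↑Mx⁻¹ : EndW n) * fderiv ℝ Ψ x)) := by rw [e1, e2]
        _ = _ := by simp only [mul_assoc]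
    rw [e]
    refine (sub_one_mul (hAM g hg) (sub_one_mul hn1 hMx2)).trans ?_
    norm_num
  · intro g hg g' hg'
    have h1 := (hfar Φ hΦ hΦE g g' (hG g hg) (hG g' hg') (Mg g) (Mg g') (hcommon g hg)
      (hcommon g' hg')).1
    have e : (↑(A g)⁻¹ : EndW n) * (A g' : EndW n) =
        ((↑(A g)⁻¹ : EndW n) * (Mg g : EndW n)) *
          (((↑(Mg g)⁻¹ : EndW n) * (Mg g' : EndW n)) *
            ((↑(Mg g')⁻¹ : EndW n) * (A g' : EndW n))) := by
      have e1 : (Mg g' : EndW n) * (↑(Mg g')⁻¹ : EndW n) = 1 := Units.mul_inv _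
      have e2 : (Mg g : EndW n) * (↑(Mg g)⁻¹ : EndW n) = 1 := Units.mul_inv _
      calc (↑(A g)⁻¹ : EndW n) * (A g' : EndW n)
          = (↑(A g)⁻¹ : EndW n) * (1 * (1 * (A g' : EndW n))) := by rw [one_mul, one_mul]
        _ = (↑(A g)⁻¹ : EndW n) * ((Mg g : EndW n) * (↑(Mg g)⁻¹ : EndW n) *
              ((Mg g' : EndW n) * (↑(Mg g')⁻¹ : EndW n) * (A g' : EndW n))) := by rw [e1, e2]
        _ = _ := by simp only [mul_assoc]
    rw [e]
    have h2 := norm_le_of_close (by norm_num) (hAM g hg)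
    have h3 := norm_le_of_close (by norm_num) (hMg g' hg').2
    calc _ ≤ ‖(↑(A g)⁻¹ : EndW n) * (Mg g : EndW n)‖ *
          (‖(↑(Mg g)⁻¹ : EndW n) * (Mg g' : EndW n)‖ *
            ‖(↑(Mg g')⁻¹ : EndW n) * (A g' : EndW n)‖) := by
          refine (norm_mul_le _ _).trans ?_
          gcongr
          exact norm_mul_le _ _
      _ ≤ 2 * (Λ * 2) := by gcongr
      _ = 4 * Λ := by ring
  · intro g hg
    have h1 := (hfar Φ hΦ hΦE g g (hG g hg) (hG g hg) (Mg g) (Mg g) (hcommon g hg)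
      (hcommon g hg)).2
    have e : Jm (A g) = ((↑(A g)⁻¹ : EndW n) * (Mg g : EndW n)) *
        (Jm (Mg g) * ((↑(Mg g)⁻¹ : EndW n) * (A g : EndW n))) := by
      have e2 : (Mg g : EndW n) * (↑(Mg g)⁻¹ : EndW n) = 1 := Units.mul_inv _
      calc Jm (A g) = (↑(A g)⁻¹ : EndW n) * (1 * (mulC Complex.I * (1 * (A g : EndW n)))) := by
            rw [one_mul, one_mul, Jm, mul_assoc]
        _ = (↑(A g)⁻¹ : EndW n) * ((Mg g : EndW n) * (↑(Mg g)⁻¹ : EndW n) *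
              (mulC Complex.I * ((Mg g : EndW n) * (↑(Mg g)⁻¹ : EndW n) * (A g : EndW n)))) := by
            rw [e2]
        _ = _ := by rw [Jm]; simp only [mul_assoc]
    rw [e]
    have h2 := norm_le_of_close (by norm_num) (hAM g hg)
    have h3 := norm_le_of_close (by norm_num) (hMg g hg).2
    calc _ ≤ ‖(↑(A g)⁻¹ : EndW n) * (Mg g : EndW n)‖ *
          (‖Jm (Mg g)‖ * ‖(↑(Mg g)⁻¹ : EndW n) * (A g : EndW n)‖) := by
          refine (norm_mul_le _ _).trans ?_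
          gcongr
          exact norm_mul_le _ _
      _ ≤ 2 * (Λ * 2) := by gcongr
      _ = 4 * Λ := by ring

end Pool.Agent.Lib.P28h
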