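import Pool.Agent.Lib.P28h.KeyP
import Pool.Agent.Lib.P28h.Energy

set_option autoImplicit false

/-!
# The scale of mean flatness: gap, finiteness, exhaustion
-/

open MeasureTheory Set Metric
open scoped ENNReal ContDiff

namespace Pool.Agent.Lib.P28h

open Pool.Agent.P28b04d Pool.Agent.Lib.P28e Pool.Agent.Lib.P28c Pool.Agent.Lib.P28g

variable {n : ℕ} {Φ : W n → W n}

theorem gap (n : ℕ) (hn : 1 ≤ n) : ∃ c : ℝ, 0 < c ∧ ∀ Φ : W n → W n, HLoc Φ → ∀ e : ℝ, e < 1 / 2 →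
    Flat Φ (1 / 8) e c →
    ∀ F : (Fin (n + 1) → Fin (n + 1) → ℂ) → (Fin (n + 1) → Fin (n + 1) → ℂ),
      (∀ z, z ≠ 0 → F (pt z) = pt (Φ z)) → IsotopicToId n F := by
  obtain ⟨δ1, hδ1, hcomp⟩ := compare n hn (1 / 4) (by norm_num)
  set K : ℝ := (n : ℝ) + 1 with hK
  have hK0 : 0 < K := by positivity
  set δ2 : ℝ := min δ1 (1 / (8 * K ^ (2 * n + 2))) with hδ2
  have hδ2p : 0 < δ2 := by positivity
  refine ⟨δ2, by positivity, fun Φ hΦ e he hE F hF => ?_⟩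
  have he0 : (0 : ℝ) ≤ max e 0 := le_max_right _ _
  have he1 : max e 0 < 1 / 2 := max_lt he (by norm_num)
  have h2 : ∀ z : W n, z ≠ 0 → ∀ ρ : ℝ, 0 < ρ → ρ ≤ ‖z‖ / 8 →
      ∃ M : (EndW n)ˣ, Good Φ z ρ (max e 0) M := by
    intro z hz ρ hρ hρ1
    obtain ⟨M, hM⟩ := (hE z hz).1 ρ hρ (by linarith)
    exact ⟨M, ChnAux.good_mono hM (le_max_left _ _)⟩
  have hsm : 0 < sm n := by unfold sm; positivity
  have hsm0 : 0 ≤ sm n := hsm.le
  have hsmK : sm n = 1 / (8 * K) := rfl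
  have hex : ∀ z : W n, z ≠ 0 → ∃ M : (EndW n)ˣ, Good Φ z (‖z‖ / 8) δ2 M := fun z hz => by
    obtain ⟨M, hM⟩ := (hE z hz).2
    rw [show 1 / 8 * ‖z‖ = ‖z‖ / 8 by ring] at hM
    exact ⟨M, hM⟩
  have hmono : ∀ {z : W n} {M : (EndW n)ˣ}, Good Φ z (‖z‖ / 8) δ2 M →
      Good Φ z (‖z‖ / 8) δ1 M := by
    intro z M h
    unfold Good at h ⊢
    refine h.trans ?_
    gcongr
    exact min_le_left _ _
  have hcmp := hcomp Φ hΦ (fun z hz => by
    obtain ⟨M, hM⟩ := hex z hz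
    exact ⟨M, hmono hM⟩)
  -- close at the last scale
  have hlast : ∀ z : W n, z ≠ 0 → ∀ M : (EndW n)ˣ, Good Φ z (‖z‖ / 8) δ2 M →
      ‖(↑M⁻¹ : EndW n) * fderiv ℝ (Avg Φ (sm n)) z - 1‖ ≤ 1 / 4 := by
    intro z hz M hM
    have hz' := norm_pos_iff.2 hz
    have hr1 := rad_le z
    have hr2 := norm_le_rad z
    have hρ' : 0 < sm n * rad z := mul_pos hsm (lt_of_lt_of_le hz' hr2)
    have hρ : sm n * rad z ≤ ‖z‖ / 8 := by
      calc sm n * rad z ≤ sm n * (K * ‖z‖) := by gcongr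
        _ = ‖z‖ / 8 := by rw [hsmK]; field_simp
    have hKρ : ‖z‖ / 8 ≤ K * (sm n * rad z) := by
      calc ‖z‖ / 8 = K * (sm n * ‖z‖) := by rw [hsmK]; field_simp
        _ ≤ K * (sm n * rad z) := by gcongr
    have hg := good_mono hρ' hρ hδ2p.le hKρ hM
    have hle : δ2 * K ^ (2 * n + 2) ≤ 1 / 8 := by
      calc δ2 * K ^ (2 * n + 2) ≤ (1 / (8 * K ^ (2 * n + 2))) * K ^ (2 * n + 2) := by
            gcongr
            exact min_le_right _ _
        _ = 1 / 8 := by field_simp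
    have := avg_close hΦ hz hsm le_rfl (by positivity) hg
    linarith
  have hinj : ∀ s : ℝ, 0 ≤ s → s ≤ sm n → ∀ z : W n, z ≠ 0 →
      ∀ v : W n, fderiv ℝ (Avg Φ s) z v = 0 → v = 0 := by
    intro s hs0 hs z hz v hv
    rcases hs0.eq_or_lt with h0 | h0
    · rw [← h0, avg_zero] at hv
      exact hΦ.inj z hz v hv
    · have hz' := norm_pos_iff.2 hz
      have hr1 := rad_le z
      have hr2 := norm_le_rad z
      have hρ' : 0 < s * rad z := mul_pos h0 (lt_of_lt_of_le hz' hr2)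
      have hρ : s * rad z ≤ ‖z‖ / 8 := by
        calc s * rad z ≤ sm n * (K * ‖z‖) :=
              mul_le_mul hs hr1 (hz'.le.trans hr2) hsm0
          _ = ‖z‖ / 8 := by rw [hsmK]; field_simp
      obtain ⟨M, hM⟩ := h2 z hz _ hρ' hρ
      have h3 := avg_close hΦ hz h0 hs he0 hM
      exact inj_of_close (M := M) (by linarith) v hv
  -- the linear map
  have he00 : e0 n ≠ 0 := by
    intro h
    have := congrFun h 0
    simp [e0] at this
  obtain ⟨M0, hM0⟩ := hex (e0 n) he00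
  have hII : (mulC Complex.I : EndW n) * mulC (-Complex.I) = 1 := by
    rw [mulC_mul]; simp [mulC_one]
  have hII' : (mulC (-Complex.I) : EndW n) * mulC Complex.I = 1 := by
    rw [mulC_mul]; simp [mulC_one]
  let J : (EndW n)ˣ := ⟨mulC Complex.I, mulC (-Complex.I), hII, hII'⟩
  have hJ : ((J * M0 * J⁻¹ : (EndW n)ˣ) : EndW n) =
      mulC Complex.I * (M0 : EndW n) * mulC (-Complex.I) := rfl
  have hIe : (Complex.I • e0 n) ≠ 0 := smul_ne_zero Complex.I_ne_zero he00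
  have hnI : ‖Complex.I • e0 n‖ = ‖e0 n‖ := by rw [norm_smul]; simp
  have hM0' : Good Φ (Complex.I • e0 n) (‖Complex.I • e0 n‖ / 8) δ2 (J * M0 * J⁻¹) := by
    rw [hnI]
    have hp := norm_pos_iff.2 he00
    exact good_mulC hΦ he00 (by positivity) (by linarith) hJ hM0
  have hc0 := hcmp (e0 n) _ he00 hIe M0 _ (hmono hM0) (hmono hM0')
  rw [hJ] at hc0
  obtain ⟨Λ, ΛR, hΛ, hΛM⟩ := linear_part M0 (by norm_num) hc0
  have hstep : Step (Λ : W n → W n) (Avg Φ (sm n)) := by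
    refine last_step hΦ Λ ΛR hΛ fun z hz => ?_
    obtain ⟨M, hM⟩ := hex z hz
    refine ⟨M, by linarith [hlast z hz M hM], ?_⟩
    have h3 := hcmp z _ hz he00 M M0 (hmono hM) (hmono hM0)
    have h4 := sub_one_mul h3 hΛM
    have e : (↑M⁻¹ : EndW n) * (M0 : EndW n) * ((↑M0⁻¹ : EndW n) * ΛR) = (↑M⁻¹ : EndW n) * ΛR := by
      rw [mul_assoc, ← mul_assoc (M0 : EndW n), Units.mul_inv, one_mul]
    rw [e] at h4
    linarith
  exact isotopic_of_chain Λ (Relation.ReflTransGen.trans (Relation.ReflTransGen.single hstep)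
    (chain_steps hΦ hinj)) hF


theorem MeanFlat.mono {κ κ' ε ε' : ℝ} (h : MeanFlat Φ κ ε) (hκ : κ' ≤ κ) (hε : ε ≤ ε') :
    MeanFlat Φ κ' ε' := fun z hz ρ hρ hρ1 => by
  obtain ⟨M, hM⟩ := h z hz ρ hρ (hρ1.trans (by gcongr))
  exact ⟨M, ChnAux.good_mono hM hε⟩

theorem MeanFlat.flat {κ e ε : ℝ} (hκ : 0 < κ) (h : MeanFlat Φ κ e) (he : e ≤ ε) : Flat Φ κ ε ε := fun z hz => by
  have hz' := norm_pos_iff.2 hz
  obtain ⟨M, hM⟩ := h z hz (κ * ‖z‖) (by positivity) le_rfl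
  exact ⟨fun ρ hρ hρ1 => (MeanFlat.mono h le_rfl he) z hz ρ hρ hρ1, M, ChnAux.good_mono hM he⟩

theorem finite (n : ℕ) : ∃ ε : ℝ, 0 < ε ∧ ∀ κ : ℝ, 0 < κ → κ ≤ 1 →
    ∃ S : Set (Mat n → Mat n), S.Finite ∧ ∀ F : Mat n → Mat n, InjOn F (CP n) → ∀ e : ℝ, e < 1 / 2 →
      (∃ Φ : W n → W n, HLoc Φ ∧ Flat Φ κ e ε ∧ ∀ z : W n, z ≠ 0 → F (pt z) = pt (Φ z)) →
      ∃ G ∈ S, Isotopic n F G := by
  obtain ⟨P, hP1, hP2⟩ := exists_net n (t := 1) one_pos
  have hne : P.Nonempty := by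
    obtain ⟨p, hp, -⟩ := hP2 (e0 n) (by
      intro h
      have := congrFun h 0
      simp [e0] at this)
    exact ⟨p, hp⟩
  obtain ⟨ε, hε, hkey⟩ := keyP n (t₀ := 1) one_pos P hne hP1
  refine ⟨ε, hε, fun κ hκ hκ1 => ?_⟩
  obtain ⟨𝒢, hfin, h𝒢, hall⟩ := hkey hκ hκ1
  refine ⟨(fun G : W n → W n => fun Q => ext (fun q : ℝ × (Fin (n + 1) → ℂ) => G q.2) (0, Q)) '' 𝒢,
    hfin.image _, fun F hF e he => ?_⟩
  rintro ⟨Φ, hΦ, hflat, hFΦ⟩
  have hi := lift_injective hΦ hFΦ hF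
  obtain ⟨G, hG, Ψ, hΨ, -, hconn, hid⟩ := hall Φ hΦ hi ⟨e, he, fun z hz ρ hρ hρ1 => (hflat z hz).1 ρ hρ hρ1⟩
    (fun z hz => (hflat z hz).2)
  refine ⟨_, ⟨G, hG, rfl⟩, ?_⟩
  have e : (fun z => G (Ψ z)) = G := by
    funext z
    by_cases hz : z = 0
    · rw [hz, hΨ.zero]
    · rw [hid z hz (hP2 z hz)]
  rw [e] at hconn
  refine iso_fin hΦ (h𝒢 G hG).1 hi (h𝒢 G hG).2 hconn (Conn.refl (h𝒢 G hG).1) (fun _ _ => rfl) hFΦ ?_
  intro z hz
  exact ext_pt (Λ := fun q : ℝ × (Fin (n + 1) → ℂ) => G q.2) (fun _ => (h𝒢 G hG).1.hom) 0 hz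

/-- Every lift is mean flat at some scale. -/
theorem exists_flat (h : HLoc Φ) {ε : ℝ} (hε : 0 < ε) : ∃ κ : ℝ, 0 < κ ∧ MeanFlat Φ κ ε := by
  -- the shell
  set S : Set (W n) := closedBall (0 : W n) 2 \ ball 0 (1 / 2) with hS
  have hScomp : IsCompact S := (isCompact_closedBall 0 2).diff isOpen_ball
  have hS0 : S ⊆ {0}ᶜ := by
    rintro x hx rfl
    exact hx.2 (by simp)
  have hc := (continuousOn_fderiv h).mono hS0
  have hu := hScomp.uniformContinuousOn_of_continuous hc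
  rw [Metric.uniformContinuousOn_iff] at hu
  -- bound of the inverse
  have hcinv : ContinuousOn (fun x : W n => (Ring.inverse (fderiv ℝ Φ x : EndW n))) S := by
    intro x hx
    obtain ⟨u, hu⟩ := isUnit_fderiv h (hS0 hx)
    have h4 : ContinuousAt (Ring.inverse : EndW n → EndW n) (fderiv ℝ Φ x) := by
      rw [← hu]
      exact NormedRing.inverse_continuousAt u
    exact h4.comp_continuousWithinAt (hc x hx)
  obtain ⟨C, hC⟩ := hScomp.exists_bound_of_continuousOn hcinv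
  have hC1 : 0 < max C 1 := by positivity
  obtain ⟨δ, hδ, hδ2⟩ := hu (ε / max C 1) (by positivity)
  refine ⟨min (δ / 2) (1 / 2), by positivity, fun z hz ρ hρ hρ1 => ?_⟩
  have hp := norm_pos_iff.2 hz
  obtain ⟨M, hM⟩ := isUnit_fderiv h hz
  refine ⟨M, ?_⟩
  have hpt : ∀ x ∈ closedBall z ρ, ‖(↑M⁻¹ : EndW n) * fderiv ℝ Φ x - 1‖ₑ ≤ ENNReal.ofReal ε := by
    intro x hx
    rw [mem_closedBall, dist_eq_norm] at hx
    have hxz : ‖x - z‖ ≤ min (δ / 2) (1 / 2) * ‖z‖ := hx.trans hρ1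
    -- rescale
    set r : ℝ := ‖z‖⁻¹ with hr
    have hr0 : 0 < r := inv_pos.2 hp
    have hz1 : ‖r • z‖ = 1 := by
      rw [norm_smul, Real.norm_of_nonneg hr0.le, hr, inv_mul_cancel₀ hp.ne']
    have hd : ‖r • x - r • z‖ ≤ min (δ / 2) (1 / 2) := by
      rw [← smul_sub, norm_smul, Real.norm_of_nonneg hr0.le]
      calc r * ‖x - z‖ ≤ r * (min (δ / 2) (1 / 2) * ‖z‖) := by gcongr
        _ = min (δ / 2) (1 / 2) := by rw [hr]; field_simp
    have hd2 : ‖r • x - r • z‖ ≤ 1 / 2 := hd.trans (min_le_right _ _)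
    have hzS : r • z ∈ S := by
      refine ⟨by simp [hz1], ?_⟩
      simp [hz1]
      norm_num
    have hx1 : 1 / 2 ≤ ‖r • x‖ := by
      have : ‖r • z‖ ≤ ‖r • x‖ + ‖r • x - r • z‖ := by
        calc ‖r • z‖ = ‖r • x - (r • x - r • z)‖ := by rw [sub_sub_cancel]
          _ ≤ _ := norm_sub_le _ _
      linarith
    have hx2 : ‖r • x‖ ≤ 2 := by
      have : ‖r • x‖ ≤ ‖r • z‖ + ‖r • x - r • z‖ := by
        calc ‖r • x‖ = ‖r • z + (r • x - r • z)‖ := by rw [add_sub_cancel]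
          _ ≤ _ := norm_add_le _ _
      linarith
    have hxS : r • x ∈ S := by
      refine ⟨by rw [mem_closedBall_zero_iff]; exact hx2, ?_⟩
      rw [mem_ball_zero_iff]
      linarith
    have hx0 : x ≠ 0 := by
      rintro rfl
      rw [smul_zero, norm_zero] at hx1
      norm_num at hx1
    have h1 := hδ2 (r • x) hxS (r • z) hzS (by
      rw [dist_eq_norm]
      have := hd.trans (min_le_left _ _)
      linarith)
    rw [dist_eq_norm, fderiv_pos_smul h hr0 hx0, fderiv_pos_smul h hr0 hz] at h1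
    have h2 : (↑M⁻¹ : EndW n) = Ring.inverse (fderiv ℝ Φ (r • z) : EndW n) := by
      rw [fderiv_pos_smul h hr0 hz, ← hM, Ring.inverse_unit]
    have h3 : ‖(↑M⁻¹ : EndW n)‖ ≤ max C 1 := by
      rw [h2]
      exact (hC _ hzS).trans (le_max_left _ _)
    have e : (↑M⁻¹ : EndW n) * fderiv ℝ Φ x - 1 = (↑M⁻¹ : EndW n) * (fderiv ℝ Φ x - fderiv ℝ Φ z) := by
      rw [mul_sub, ← hM, Units.inv_mul]
    rw [e, ← ofReal_norm]
    refine ENNReal.ofReal_le_ofReal ?_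
    calc ‖(↑M⁻¹ : EndW n) * (fderiv ℝ Φ x - fderiv ℝ Φ z)‖
        ≤ ‖(↑M⁻¹ : EndW n)‖ * ‖fderiv ℝ Φ x - fderiv ℝ Φ z‖ := norm_mul_le _ _
      _ ≤ max C 1 * (ε / max C 1) := by gcongr
      _ = ε := by field_simp
  unfold Good
  calc ∫⁻ x in closedBall z ρ, ‖(↑M⁻¹ : EndW n) * fderiv ℝ Φ x - 1‖ₑ
      ≤ ∫⁻ _x in closedBall z ρ, ENNReal.ofReal ε := setLIntegral_mono' measurableSet_closedBall hpt
    _ = ENNReal.ofReal ε * volume (closedBall z ρ) := by rw [setLIntegral_const]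

end Pool.Agent.Lib.P28h
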