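import Pool.Agent.Lib.P28h.Top

set_option autoImplicit false

/-!
# An oscillation gap for diffeomorphisms of complex projective space

A homogeneous lift `Φ` of a self-map of `CP^n` (smooth off `0`, `Φ (c z) = c Φ z`, injective real derivative) is
`Flat Φ κ e ε` if in every ball `B(z, ρ)`, `ρ ≤ κ |z|`, there is an invertible real matrix `M`, depending on the ball, with
`mean |M⁻¹ dΦ - 1| ≤ e`, and for `ρ = κ |z|` one with `mean |M⁻¹ dΦ - 1| ≤ ε`. There are `ε, c > 0` depending only on `n`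
such that for every `e < 1/2` a map induced by a lift with `Flat Φ (1/8) e ε` is smoothly isotopic to the identity
(for `n = 2` literally the conclusion of S12917), and such that this holds (with `e = 1/4`) as soon as the critical energy
`∫_{|x| < 1} |(dΦ_x)⁻¹ D²Φ_x|^(2n) dx` is at most `c`.
-/

open MeasureTheory Metric

namespace Pool.Agent.Lib.P28h.OscGapResult

open Pool.Agent.P28b04d Pool.Agent.Lib.P28e Pool.Agent.Lib.P28g Pool.Agent.Lib.P28h

theorem result (n : ℕ) (hn : 1 ≤ n) : ∃ ε c : ℝ, 0 < ε ∧ 0 < c ∧ ∀ Φ : W n → W n, HLoc Φ →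
    (∀ e : ℝ, e < 1 / 2 → Flat Φ (1 / 8) e ε →
      ∀ F : (Fin (n + 1) → Fin (n + 1) → ℂ) → (Fin (n + 1) → Fin (n + 1) → ℂ),
        (∀ z : W n, z ≠ 0 → F (pt z) = pt (Φ z)) → IsotopicToId n F) ∧
    ∀ a : W n → ℝ, ConnLe Φ a →
      ∫⁻ x in ball (0 : W n) 1, ENNReal.ofReal (a x) ^ (2 * n) ≤ ENNReal.ofReal c →
      Flat Φ (1 / 8) (1 / 4) ε := by
  obtain ⟨ε, c, hε, hc, h1, h2⟩ := top_gap n hn
  exact ⟨ε, c, hε, hc, fun Φ hΦ => ⟨fun e he hflat F hF => h1 Φ hΦ e he hflat F hF, fun a ha hE => h2 Φ a hΦ ha hE⟩⟩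

end Pool.Agent.Lib.P28h.OscGapResult
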