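import Pool.Agent.Lib.P28h.MainP

set_option autoImplicit false

/-!
# The scale of mean flatness: the theorem
-/

open MeasureTheory Set Metric
open scoped ENNReal ContDiff

namespace Pool.Agent.Lib.P28h

open Pool.Agent.P28b04d Pool.Agent.Lib.P28e Pool.Agent.Lib.P28c Pool.Agent.Lib.P28g

theorem top_gap (n : ℕ) (hn : 1 ≤ n) : ∃ ε c : ℝ, 0 < ε ∧ 0 < c ∧
    (∀ Φ : W n → W n, HLoc Φ → ∀ e : ℝ, e < 1 / 2 → Flat Φ (1 / 8) e ε → ∀ F : Mat n → Mat n,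
      (∀ z : W n, z ≠ 0 → F (pt z) = pt (Φ z)) → IsotopicToId n F) ∧
    ∀ (Φ : W n → W n) (a : W n → ℝ), HLoc Φ → ConnLe Φ a →
      ∫⁻ x in ball (0 : W n) 1, ENNReal.ofReal (a x) ^ (2 * n) ≤ ENNReal.ofReal c →
      Flat Φ (1 / 8) (1 / 4) ε := by
  obtain ⟨ε, hε, hgap⟩ := gap n hn
  obtain ⟨c, hc, h⟩ := good_all n hn (min ε (1 / 4)) (by positivity)
  refine ⟨ε, c, hε, hc, fun Φ hΦ e he hflat F hF => hgap Φ hΦ e he hflat F hF, ?_⟩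
  intro Φ a hΦ ha he
  have hm : MeanFlat Φ (1 / 8) (min ε (1 / 4)) := fun z hz ρ hρ hρ1 => by
    refine h Φ hΦ (le_trans ?_ he) z hz ρ hρ (by linarith)
    unfold energy
    refine lintegral_mono_ae ?_
    have h0 : ∀ᵐ x : W n ∂(volume.restrict (ball (0 : W n) 1)), x ≠ 0 := by
      refine ae_restrict_of_ae ?_
      exact Measure.ae_ne volume (0 : W n)
    filter_upwards [h0] with x hx
    gcongr
    rw [← ofReal_norm]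
    exact ENNReal.ofReal_le_ofReal (norm_conn_le hΦ ha hx)
  intro z hz
  have hz' := norm_pos_iff.2 hz
  obtain ⟨M, hM⟩ := hm z hz (1 / 8 * ‖z‖) (by positivity) le_rfl
  exact ⟨fun ρ hρ hρ1 => (MeanFlat.mono hm le_rfl (min_le_right _ _)) z hz ρ hρ hρ1,
    M, ChnAux.good_mono hM (min_le_left _ _)⟩

theorem top_fin (n : ℕ) : ∃ ε : ℝ, 0 < ε ∧
    (∀ κ : ℝ, 0 < κ → κ ≤ 1 → ∃ S : Set (Mat n → Mat n), S.Finite ∧
      ∀ F : Mat n → Mat n, Set.InjOn F (CP n) → ∀ e : ℝ, e < 1 / 2 →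
        (∃ Φ : W n → W n, HLoc Φ ∧ Flat Φ κ e ε ∧ ∀ z : W n, z ≠ 0 → F (pt z) = pt (Φ z)) →
        ∃ G ∈ S, Isotopic n F G) ∧
    ∀ (F G : Mat n → Mat n) (H : ℝ × Mat n → Mat n), ContDiff ℝ (⊤ : ℕ∞) F → ContDiff ℝ (⊤ : ℕ∞) G →
      (∀ P ∈ CP n, F P ∈ CP n) → (∀ P ∈ CP n, G (F P) = P) →
      ContinuousOn H (Set.Icc (0 : ℝ) 1 ×ˢ CP n) →
      (∀ t ∈ Set.Icc (0 : ℝ) 1, ∀ P ∈ CP n, H (t, P) ∈ CP n) →
      (∀ P ∈ CP n, H (0, P) = P) → (∀ P ∈ CP n, H (1, P) = F P) →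
      ∀ η : ℝ, 0 < η → ∃ κ : ℝ, 0 < κ ∧ κ ≤ 1 ∧ ∃ Φ : W n → W n, HLoc Φ ∧ Flat Φ κ η η ∧
        ∀ z : W n, z ≠ 0 → F (pt z) = pt (Φ z) := by
  obtain ⟨ε, hε, hfin⟩ := finite n
  refine ⟨ε, hε, hfin, ?_⟩
  intro F G H hF hG hFm hGF hH hHm hH0 hH1 η hη
  obtain ⟨Φ, hΦ, hpt⟩ := exists_lift hF hG hFm hGF hH hHm hH0 hH1
  obtain ⟨κ, hκ, hflat⟩ := exists_flat hΦ (ε := η) hη
  exact ⟨min κ 1, by positivity, min_le_right _ _, Φ, hΦ,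
    MeanFlat.flat (by positivity) (hflat.mono (min_le_left _ _) le_rfl) le_rfl, hpt⟩

end Pool.Agent.Lib.P28h
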